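import Pool.Agent.W653.AL.Twist

/-!
# Wilson loops and percolation in the layers
-/

set_option autoImplicit false
set_option linter.unusedSectionVars false
set_option linter.unusedDecidableInType false
set_option linter.unusedFintypeInType false

namespace Pool.Agent.W653.AL

open Finset MeasureTheory

variable {G : Type} [Group G] {n N M : ℕ}

/-- the real part of the character -/
noncomputable def rt (π : G →* Matrix.unitaryGroup (Fin N) ℂ) (g : G) : ℝ :=
  (Matrix.trace (π g : Matrix (Fin N) (Fin N) ℂ)).re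

theorem tr_norm (π : G →* Matrix.unitaryGroup (Fin N) ℂ) (g : G) :
    ‖Matrix.trace (π g : Matrix (Fin N) (Fin N) ℂ)‖ ≤ N := by
  unfold Matrix.trace
  refine (norm_sum_le _ _).trans ?_
  refine (Finset.sum_le_sum fun i _ => entry_norm_bound_of_unitary (π g).2 i i).trans ?_
  simp

theorem rt_le (π : G →* Matrix.unitaryGroup (Fin N) ℂ) (g : G) : rt π g ≤ N :=
  (Complex.re_le_norm _).trans (tr_norm π g)

theorem rt_ge (π : G →* Matrix.unitaryGroup (Fin N) ℂ) (g : G) : -(N : ℝ) ≤ rt π g := by
  have h1 := Complex.abs_re_le_norm (Matrix.trace (π g : Matrix (Fin N) (Fin N) ℂ))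
  have h2 := neg_abs_le (rt π g)
  have h3 := tr_norm π g
  unfold rt at *
  linarith

/-- the coupling of a plaquette -/
noncomputable def cpl (c : Sit n → Fin 4 → Fin 4 → ℝ) (x : Sit n) (i j : Fin 4) : ℝ :=
  if (x i : ℕ) + 1 < n ∧ (x j : ℕ) + 1 < n then c x i j else 0

/-- the action -/
noncomputable def act (π : G →* Matrix.unitaryGroup (Fin N) ℂ) (c : Sit n → Fin 4 → Fin 4 → ℝ)
    (U : Cfg G n) : ℝ :=
  ∑ x : Sit n, ∑ i : Fin 4, ∑ j : Fin 4, if i < j then cpl c x i j * rt π (plq U x i j) else 0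

/-- the coupling of the plaquette spanned by `a` and an edge -/
noncomputable def kap (a : Fin 4) (c : Sit n → Fin 4 → Fin 4 → ℝ) (e : Sit n × Fin 4) : ℝ :=
  if e.2 = a then 0 else if a < e.2 then cpl c e.1 a e.2 else cpl c e.1 e.2 a

/-- the trace of the plaquette spanned by `a` and an edge -/
noncomputable def rr (π : G →* Matrix.unitaryGroup (Fin N) ℂ) (a : Fin 4) (U : Cfg G n)
    (e : Sit n × Fin 4) : ℝ :=
  if a < e.2 then rt π (plq U e.1 a e.2) else rt π (plq U e.1 e.2 a)

/-- the part of the action perpendicular to `a` -/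
noncomputable def rst (π : G →* Matrix.unitaryGroup (Fin N) ℂ) (a : Fin 4)
    (c : Sit n → Fin 4 → Fin 4 → ℝ) (U : Cfg G n) : ℝ :=
  ∑ x : Sit n, ∑ i : Fin 4, ∑ j : Fin 4,
    if i < j ∧ i ≠ a ∧ j ≠ a then cpl c x i j * rt π (plq U x i j) else 0

theorem split_four (a : Fin 4) (g : Fin 4 → Fin 4 → ℝ) :
    (∑ i : Fin 4, ∑ j : Fin 4, if i < j then g i j else 0) =
      (∑ k : Fin 4, if k = a then 0 else if a < k then g a k else g k a) +
        ∑ i : Fin 4, ∑ j : Fin 4, if i < j ∧ i ≠ a ∧ j ≠ a then g i j else 0 := by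
  fin_cases a <;> simp [Fin.sum_univ_four] <;> ring

theorem act_eq (π : G →* Matrix.unitaryGroup (Fin N) ℂ) (a : Fin 4)
    (c : Sit n → Fin 4 → Fin 4 → ℝ) (U : Cfg G n) :
    act π c U = ∑ e, kap a c e * rr π a U e + rst π a c U := by
  unfold act rst
  rw [Fintype.sum_prod_type, ← Finset.sum_add_distrib]
  refine Finset.sum_congr rfl fun x _ => ?_
  rw [split_four a]
  congr 1
  refine Finset.sum_congr rfl fun k _ => ?_
  unfold kap rr
  dsimp only
  split_ifs
  · rw [zero_mul]
  · rw [zero_mul]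
  · rfl
  · rfl

theorem rr_le (π : G →* Matrix.unitaryGroup (Fin N) ℂ) (a : Fin 4) (U : Cfg G n)
    (e : Sit n × Fin 4) : rr π a U e ≤ N := by
  unfold rr
  split_ifs
  · exact rt_le _ _
  · exact rt_le _ _

theorem rr_ge (π : G →* Matrix.unitaryGroup (Fin N) ℂ) (a : Fin 4) (U : Cfg G n)
    (e : Sit n × Fin 4) : -(N : ℝ) ≤ rr π a U e := by
  unfold rr
  split_ifs
  · exact rt_ge _ _
  · exact rt_ge _ _

theorem rst_tw (π : G →* Matrix.unitaryGroup (Fin N) ℂ) (a : Fin 4)
    (c : Sit n → Fin 4 → Fin 4 → ℝ) (C : Set (Sit n)) (z : G) (U : Cfg G n) :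
    rst π a c (tw a C z * U) = rst π a c U := by
  unfold rst
  refine Finset.sum_congr rfl fun x _ => Finset.sum_congr rfl fun i _ =>
    Finset.sum_congr rfl fun j _ => ?_
  by_cases h : i < j ∧ i ≠ a ∧ j ≠ a
  · rw [if_pos h, if_pos h, plq_tw_ne h.2.1 h.2.2]
  · rw [if_neg h, if_neg h]

theorem rr_tw (π : G →* Matrix.unitaryGroup (Fin N) ℂ) {a : Fin 4} {C : Set (Sit n)} {z : G}
    (hz : ∀ g, z * g = g * z) (U : Cfg G n) (e : Sit n × Fin 4) (he : e.2 ≠ a)
    (hC : e.1 ∈ C ↔ tg a e ∈ C) : rr π a (tw a C z * U) e = rr π a U e := by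
  have h1 : tg a e = nx e.1 e.2 := by
    unfold tg
    rw [if_neg he]
  rw [h1] at hC
  unfold rr
  rw [plq_tw_left he hz U e.1 hC, plq_tw_right he hz U e.1 hC]

/-- the effective probability of an open edge in a given field -/
noncomputable def qU (π : G →* Matrix.unitaryGroup (Fin N) ℂ) (a : Fin 4)
    (c : Sit n → Fin 4 → Fin 4 → ℝ) (U : Cfg G n) (e : Sit n × Fin 4) : ℝ :=
  1 - Real.exp (-(kap a c e * N) - kap a c e * rr π a U e)

/-- the uniform probability -/
noncomputable def pr (N : ℕ) (a : Fin 4) (c : Sit n → Fin 4 → Fin 4 → ℝ)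
    (e : Sit n × Fin 4) : ℝ := 1 - Real.exp (-(2 * N * kap a c e))

theorem Fw_eq (π : G →* Matrix.unitaryGroup (Fin N) ℂ) (a : Fin 4)
    (c : Sit n → Fin 4 → Fin 4 → ℝ) (U : Cfg G n) (w : Sit n × Fin 4 → Bool) :
    Real.exp (act π c U) * wt (qU π a c U) w = Real.exp (rst π a c U) *
      ∏ e, (if w e then Real.exp (kap a c e * rr π a U e) - Real.exp (-(kap a c e * N))
        else Real.exp (-(kap a c e * N))) := by
  rw [act_eq π a, Real.exp_add, Real.exp_sum]
  unfold wt
  rw [mul_comm (∏ e, _) (Real.exp _), mul_assoc, ← Finset.prod_mul_distrib]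
  congr 1
  refine Finset.prod_congr rfl fun e _ => ?_
  unfold qU
  have h : Real.exp (kap a c e * rr π a U e) *
      Real.exp (-(kap a c e * N) - kap a c e * rr π a U e) = Real.exp (-(kap a c e * N)) := by
    rw [← Real.exp_add]
    congr 1
    ring
  split_ifs
  · rw [mul_sub, h, mul_one]
  · rw [sub_sub_cancel, h]

theorem Fw_tw (π : G →* Matrix.unitaryGroup (Fin N) ℂ) {a : Fin 4}
    (c : Sit n → Fin 4 → Fin 4 → ℝ) {C : Set (Sit n)} {z : G}
    (hz : ∀ g, z * g = g * z) (U : Cfg G n) (w : Sit n × Fin 4 → Bool)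
    (hC : ∀ e : Sit n × Fin 4, w e = true → (e.1 ∈ C ↔ tg a e ∈ C)) :
    Real.exp (act π c (tw a C z * U)) * wt (qU π a c (tw a C z * U)) w =
      Real.exp (act π c U) * wt (qU π a c U) w := by
  rw [Fw_eq, Fw_eq, rst_tw]
  congr 1
  refine Finset.prod_congr rfl fun e _ => ?_
  split_ifs with h
  · by_cases he : e.2 = a
    · have : kap a c e = 0 := by unfold kap; rw [if_pos he]
      simp only [this, zero_mul]
    · rw [rr_tw π hz U e he (hC e h)]
  · rfl

theorem qU_prb (π : G →* Matrix.unitaryGroup (Fin N) ℂ) {a : Fin 4}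
    {c : Sit n → Fin 4 → Fin 4 → ℝ} (hc : ∀ e, 0 ≤ kap a c e) (U : Cfg G n) :
    Prb (qU π a c U) := by
  intro e
  unfold qU
  have h1 := rr_ge π a U e
  have h2 : -(kap a c e * N) - kap a c e * rr π a U e ≤ 0 := by
    have := mul_nonneg (hc e) (show 0 ≤ (N : ℝ) + rr π a U e by linarith)
    linarith
  have h3 := Real.exp_le_one_iff.2 h2
  have h4 := Real.exp_pos (-(kap a c e * N) - kap a c e * rr π a U e)
  constructor <;> linarith

theorem pr_prb {a : Fin 4} {c : Sit n → Fin 4 → Fin 4 → ℝ} (hc : ∀ e, 0 ≤ kap a c e) :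
    Prb (pr N a c) := by
  intro e
  unfold pr
  have h2 : -(2 * N * kap a c e) ≤ 0 := by
    have := mul_nonneg (Nat.cast_nonneg (α := ℝ) N) (hc e)
    linarith
  have h3 := Real.exp_le_one_iff.2 h2
  have h4 := Real.exp_pos (-(2 * N * kap a c e))
  constructor <;> linarith

theorem qU_le (π : G →* Matrix.unitaryGroup (Fin N) ℂ) {a : Fin 4}
    {c : Sit n → Fin 4 → Fin 4 → ℝ} (hc : ∀ e, 0 ≤ kap a c e) (U : Cfg G n)
    (e : Sit n × Fin 4) : qU π a c U e ≤ pr N a c e := by
  unfold qU pr
  have h1 := rr_le π a U e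
  have h2 : -(2 * N * kap a c e) ≤ -(kap a c e * N) - kap a c e * rr π a U e := by
    have := mul_nonneg (hc e) (show 0 ≤ (N : ℝ) - rr π a U e by linarith)
    linarith
  have h3 := Real.exp_le_exp.2 h2
  linarith

section top

variable [TopologicalSpace G] [IsTopologicalGroup G]

theorem continuous_rt {π : G →* Matrix.unitaryGroup (Fin N) ℂ} (hπ : Continuous π) :
    Continuous (rt π) :=
  Complex.continuous_re.comp ((continuous_subtype_val.comp hπ).matrix_trace)

theorem continuous_plq (x : Sit n) (i j : Fin 4) : Continuous fun U : Cfg G n => plq U x i j := by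
  unfold plq
  fun_prop

theorem continuous_seg (x : Sit n) (i : Fin 4) (m : ℕ) :
    Continuous fun U : Cfg G n => seg U x i m := by
  induction m with
  | zero => exact continuous_const
  | succ m ih => exact ih.mul (continuous_apply _)

theorem continuous_rec4 (x : Sit n) (a b : Fin 4) (R L : ℕ) :
    Continuous fun U : Cfg G n => rec4 U x a b R L :=
  (((continuous_seg x a R).mul (continuous_seg _ b L)).mul (continuous_seg _ a R).inv).mul
    (continuous_seg x b L).inv

theorem continuous_act {π : G →* Matrix.unitaryGroup (Fin N) ℂ} (hπ : Continuous π)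
    (c : Sit n → Fin 4 → Fin 4 → ℝ) : Continuous (act π c : Cfg G n → ℝ) := by
  unfold act
  refine continuous_finset_sum _ fun x _ => continuous_finset_sum _ fun i _ =>
    continuous_finset_sum _ fun j _ => ?_
  split_ifs
  · exact continuous_const.mul ((continuous_rt hπ).comp (continuous_plq x i j))
  · exact continuous_const

theorem continuous_rr {π : G →* Matrix.unitaryGroup (Fin N) ℂ} (hπ : Continuous π) (a : Fin 4)
    (e : Sit n × Fin 4) : Continuous fun U : Cfg G n => rr π a U e := by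
  unfold rr
  split_ifs
  · exact (continuous_rt hπ).comp (continuous_plq _ _ _)
  · exact (continuous_rt hπ).comp (continuous_plq _ _ _)

theorem continuous_wt {π : G →* Matrix.unitaryGroup (Fin N) ℂ} (hπ : Continuous π) (a : Fin 4)
    (c : Sit n → Fin 4 → Fin 4 → ℝ) (w : Sit n × Fin 4 → Bool) :
    Continuous fun U : Cfg G n => wt (qU π a c U) w := by
  unfold wt
  refine continuous_finset_prod _ fun e _ => ?_
  have h : Continuous fun U : Cfg G n => qU π a c U e := by
    unfold qU
    exact continuous_const.sub (Real.continuous_exp.comp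
      (continuous_const.sub (continuous_const.mul (continuous_rr hπ a e))))
  split_ifs
  · exact h
  · exact continuous_const.sub h

end top

section meas

variable [TopologicalSpace G] [IsTopologicalGroup G] [CompactSpace G]
  [SecondCountableTopology G] [MeasurableSpace G] [BorelSpace G]
  (σ : Measure G) [IsProbabilityMeasure σ] [σ.IsHaarMeasure]

/-- product Haar measure -/
noncomputable abbrev mu (σ : Measure G) (n : ℕ) : Measure (Cfg G n) := Measure.pi fun _ => σ

theorem integrable_of_cont {F : Type} [NormedAddCommGroup F] [SecondCountableTopologyEither (Cfg G n) F]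
    {f : Cfg G n → F} (hf : Continuous f) : Integrable f (mu σ n) :=
  hf.integrable_of_hasCompactSupport (HasCompactSupport.of_compactSpace f)

theorem vanish {τ : G →* Matrix.unitaryGroup (Fin M) ℂ} (hτ : Continuous τ)
    (hfix : ∀ v : Fin M → ℂ, (∀ z ∈ Subgroup.center G,
      (τ z : Matrix (Fin M) (Fin M) ℂ).mulVec v = v) → v = 0)
    {F : Cfg G n → ℝ} (hF : Continuous F) {hol : Cfg G n → G} (hh : Continuous hol)
    (T : G → Cfg G n) (hT : ∀ z ∈ Subgroup.center G, ∀ U, F (T z * U) = F U)
    (hT' : ∀ z ∈ Subgroup.center G, ∀ U, hol (T z * U) = z * hol U) :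
    ∫ U, (F U : ℂ) * Matrix.trace (τ (hol U) : Matrix (Fin M) (Fin M) ℂ) ∂mu σ n = 0 := by
  set A : Cfg G n → Matrix (Fin M) (Fin M) ℂ := fun U => (τ (hol U) : Matrix (Fin M) (Fin M) ℂ)
    with hA
  have hAc : Continuous A := continuous_subtype_val.comp (hτ.comp hh)
  have hc : ∀ i j, Continuous fun U => (F U : ℂ) * A U i j := fun i j =>
    (Complex.continuous_ofReal.comp hF).mul (hAc.matrix_elem i j)
  have hint : ∀ i j, Integrable (fun U => (F U : ℂ) * A U i j) (mu σ n) := fun i j =>
    integrable_of_cont σ (hc i j)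
  have hfx : ∀ z ∈ Subgroup.center G, ∀ i j, ∫ U, (F U : ℂ) * A U i j ∂mu σ n =
      ∑ k, (τ z : Matrix (Fin M) (Fin M) ℂ) i k * ∫ U, (F U : ℂ) * A U k j ∂mu σ n := by
    intro z hz i j
    rw [← integral_mul_left_eq_self (fun U => (F U : ℂ) * A U i j) (T z)]
    have h1 : ∀ U, (F (T z * U) : ℂ) * A (T z * U) i j =
        ∑ k, (τ z : Matrix (Fin M) (Fin M) ℂ) i k * ((F U : ℂ) * A U k j) := by
      intro U
      have h2 : A (T z * U) = (τ z : Matrix (Fin M) (Fin M) ℂ) * A U := by
        simp only [hA]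
        rw [hT' z hz U, map_mul]
        rfl
      rw [hT z hz U, h2, Matrix.mul_apply, Finset.mul_sum]
      exact Finset.sum_congr rfl fun k _ => by ring
    simp only [h1]
    rw [integral_finset_sum _ fun k _ => (hint k j).const_mul _]
    exact Finset.sum_congr rfl fun k _ => integral_const_mul _ _
  have hzero : ∀ i j, ∫ U, (F U : ℂ) * A U i j ∂mu σ n = 0 := by
    intro i j
    have := hfix (fun i => ∫ U, (F U : ℂ) * A U i j ∂mu σ n) fun z hz => by
      funext i
      rw [hfx z hz i j]
      rfl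
    exact congrFun this i
  have h3 : ∀ U, (F U : ℂ) * Matrix.trace (τ (hol U) : Matrix (Fin M) (Fin M) ℂ) =
      ∑ i, (F U : ℂ) * A U i i := by
    intro U
    rw [← Finset.mul_sum]
    rfl
  simp only [h3]
  rw [integral_finset_sum _ fun i _ => hint i i]
  exact Finset.sum_eq_zero fun i _ => hzero i i

/-- **Wilson loops are bounded by percolation in the layers.** -/
theorem main_bound {π : G →* Matrix.unitaryGroup (Fin N) ℂ} (hπ : Continuous π)
    {τ : G →* Matrix.unitaryGroup (Fin M) ℂ} (hτ : Continuous τ)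
    (hfix : ∀ v : Fin M → ℂ, (∀ z ∈ Subgroup.center G,
      (τ z : Matrix (Fin M) (Fin M) ℂ).mulVec v = v) → v = 0)
    (c : Sit n → Fin 4 → Fin 4 → ℝ) {a b : Fin 4} (hba : b ≠ a) (hc : ∀ e, 0 ≤ kap a c e)
    (x : Sit n) (R L : ℕ) (hR : (x a : ℕ) + R ≤ n) :
    ‖∫ U, (Real.exp (act π c U) : ℂ) *
        Matrix.trace (τ (rec4 U x a b R L) : Matrix (Fin M) (Fin M) ℂ) ∂mu σ n‖ ≤
      M * (∏ t ∈ range R, PC Prod.fst (tg a) (pr N a c) Set.univ (mv x a t)
        (mv (mv x b L) a t)) * ∫ U, Real.exp (act π c U) ∂mu σ n := by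
  classical
  set W : Cfg G n → ℂ := fun U => Matrix.trace (τ (rec4 U x a b R L) : Matrix (Fin M) (Fin M) ℂ)
    with hW
  have hWc : Continuous W :=
    (continuous_subtype_val.comp (hτ.comp (continuous_rec4 x a b R L))).matrix_trace
  have hW1 : ∀ U, ‖W U‖ ≤ M := fun U => tr_norm τ _
  set Fw : (Sit n × Fin 4 → Bool) → Cfg G n → ℝ := fun w U =>
    Real.exp (act π c U) * wt (qU π a c U) w with hFw
  have hFc : ∀ w, Continuous (Fw w) := fun w =>
    (Real.continuous_exp.comp (continuous_act hπ c)).mul (continuous_wt hπ a c w)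
  have hF0 : ∀ w U, 0 ≤ Fw w U := fun w U =>
    mul_nonneg (Real.exp_pos _).le (wt_nonneg (qU_prb π hc U) w)
  have hsum : ∀ U, ∑ w, Fw w U = Real.exp (act π c U) := by
    intro U
    simp only [hFw]
    rw [← Finset.mul_sum, sum_wt, mul_one]
  set f : (Sit n × Fin 4 → Bool) → ℝ := fun w =>
    ∏ t ∈ range R, ind (Cn Prod.fst (tg a) Set.univ w (mv x a t) (mv (mv x b L) a t)) with hf
  have hf0 : ∀ w, 0 ≤ f w := fun w => Finset.prod_nonneg fun t _ => ind_nonneg _
  have hfm : Monotone f := fun w w' h =>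
    Finset.prod_le_prod (fun t _ => ind_nonneg _) fun t _ => Cn_monotone _ _ _ h
  have hint : ∀ w, Integrable (fun U => (Fw w U : ℂ) * W U) (mu σ n) := fun w =>
    integrable_of_cont σ ((Complex.continuous_ofReal.comp (hFc w)).mul hWc)
  have hintF : ∀ w, Integrable (Fw w) (mu σ n) := fun w => integrable_of_cont σ (hFc w)
  have e1 : ∫ U, (Real.exp (act π c U) : ℂ) * W U ∂mu σ n =
      ∑ w, ∫ U, (Fw w U : ℂ) * W U ∂mu σ n := by
    rw [← integral_finset_sum _ fun w _ => hint w]
    congr 1
    funext U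
    rw [← Finset.sum_mul, ← hsum U]
    push_cast
    rfl
  have e2 : ∀ w, ‖∫ U, (Fw w U : ℂ) * W U ∂mu σ n‖ ≤ f w * (M * ∫ U, Fw w U ∂mu σ n) := by
    intro w
    by_cases hw : ∀ t < R, Cn Prod.fst (tg a) Set.univ w (mv x a t) (mv (mv x b L) a t)
    · have h1 : f w = 1 := Finset.prod_eq_one fun t ht => ind_true (hw t (Finset.mem_range.1 ht))
      rw [h1, one_mul, ← integral_const_mul]
      refine (norm_integral_le_integral_norm _).trans (integral_mono (hint w).norm
        ((hintF w).const_mul _) fun U => ?_)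
      show ‖(Fw w U : ℂ) * W U‖ ≤ M * Fw w U
      rw [norm_mul, Complex.norm_real, Real.norm_of_nonneg (hF0 w U), mul_comm]
      exact mul_le_mul_of_nonneg_right (hW1 U) (hF0 w U)
    · push Not at hw
      obtain ⟨t, ht, hwt⟩ := hw
      have h2 : ∫ U, (Fw w U : ℂ) * W U ∂mu σ n = 0 := by
        set C : Set (Sit n) := {v | Cn Prod.fst (tg a) Set.univ w (mv x a t) v} with hC
        have hCx : mv x a t ∈ C := Relation.ReflTransGen.refl
        have hCy : mv (mv x b L) a t ∉ C := hwt
        have hlay : ∀ v ∈ C, (v a : ℕ) = x a + t := by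
          intro v hv
          rw [Cn_layer hv, mv_eq x (by omega)]
        have hCe : ∀ e : Sit n × Fin 4, w e = true → (e.1 ∈ C ↔ tg a e ∈ C) := by
          intro e he
          constructor
          · intro h
            exact Relation.ReflTransGen.tail h ⟨trivial, trivial, e, he, Or.inl ⟨rfl, rfl⟩⟩
          · intro h
            exact Relation.ReflTransGen.tail h ⟨trivial, trivial, e, he, Or.inr ⟨rfl, rfl⟩⟩
        have hya : mv x b L a = x a := mv_ne x hba.symm L
        refine vanish σ hτ hfix (hFc w) (continuous_rec4 x a b R L) (fun z => tw a C z) ?_ ?_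
        · intro z hz U
          exact Fw_tw π c (fun g => (Subgroup.mem_center_iff.1 hz g).symm) U w hCe
        · intro z hz U
          refine rec4_tw hba (fun g => (Subgroup.mem_center_iff.1 hz g).symm) U x R L ?_ ?_
          · exact cnt_one hR ht hlay hCx
          · refine cnt_zero (t := t) (h := x a + t) ?_ ?_ hlay hCy
            · rw [hya]; exact hR
            · rw [hya]
      rw [h2, norm_zero]
      exact mul_nonneg (hf0 w) (mul_nonneg (Nat.cast_nonneg M) (integral_nonneg (hF0 w)))
  have e3 : ∑ w, f w * (M * ∫ U, Fw w U ∂mu σ n) =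
      M * ∫ U, Real.exp (act π c U) * Ex (qU π a c U) f ∂mu σ n := by
    have h1 : ∀ U, Real.exp (act π c U) * Ex (qU π a c U) f = ∑ w, f w * Fw w U := by
      intro U
      unfold Ex
      rw [Finset.mul_sum]
      refine Finset.sum_congr rfl fun w _ => ?_
      simp only [hFw]
      ring
    simp only [h1]
    rw [integral_finset_sum _ fun w _ => (hintF w).const_mul _, Finset.mul_sum]
    refine Finset.sum_congr rfl fun w _ => ?_
    rw [integral_const_mul]
    ring
  have hEc : Continuous fun U : Cfg G n => Ex (qU π a c U) f := by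
    unfold Ex
    exact continuous_finset_sum _ fun w _ => (continuous_wt hπ a c w).mul continuous_const
  have hexp : Continuous fun U : Cfg G n => Real.exp (act π c U) :=
    Real.continuous_exp.comp (continuous_act hπ c)
  have e4 : ∫ U, Real.exp (act π c U) * Ex (qU π a c U) f ∂mu σ n ≤
      Ex (pr N a c) f * ∫ U, Real.exp (act π c U) ∂mu σ n := by
    rw [← integral_const_mul]
    refine integral_mono (integrable_of_cont σ (hexp.mul hEc))
      (integrable_of_cont σ (continuous_const.mul hexp)) fun U => ?_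
    show Real.exp (act π c U) * Ex (qU π a c U) f ≤ Ex (pr N a c) f * Real.exp (act π c U)
    rw [mul_comm]
    exact mul_le_mul_of_nonneg_right (Ex_mono_p (qU_prb π hc U) (pr_prb hc) (qU_le π hc U) hfm)
      (Real.exp_pos _).le
  have e5 : Ex (pr N a c) f = ∏ t ∈ range R, PC Prod.fst (tg a) (pr N a c) Set.univ (mv x a t)
        (mv (mv x b L) a t) := by
    refine layers (pr_prb hc) a (fun t => mv x a t) (fun t => mv (mv x b L) a t) R ?_
    intro s hs t ht hst h
    have h1 := mv_eq x (i := a) (m := s) (by omega)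
    have h2 := mv_eq x (i := a) (m := t) (by omega)
    rw [h] at h1
    omega
  rw [e1]
  refine (norm_sum_le _ _).trans ((Finset.sum_le_sum fun w _ => e2 w).trans ?_)
  rw [e3, ← e5, mul_assoc]
  exact mul_le_mul_of_nonneg_left e4 (Nat.cast_nonneg M)

end meas

end Pool.Agent.W653.AL
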