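import Pool.Agent.W653.AL.Tube
import Pool.Agent.W653.AL.Wil

/-!
# The area law for weakly coupled slabs
-/

set_option autoImplicit false
set_option linter.unusedSectionVars false
set_option linter.unusedDecidableInType false
set_option linter.unusedFintypeInType false

namespace Pool.Agent.W653.AL

open Finset MeasureTheory

variable {n N : ℕ}

/-- The slab of a site: the sites with the same values of the last two coordinates divided by `K`. -/
def slb (K : ℕ) (x : Sit n) : ℕ × ℕ := ((x 2 : ℕ) / K, (x 3 : ℕ) / K)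

/-- The couplings of the plaquettes spanned by the direction `a` and another direction are in
`[0, B]`, and at most `ε` if the plaquette meets two slabs. -/
structure Cpl (B ε : ℝ) (K : ℕ) (c : Sit n → Fin 4 → Fin 4 → ℝ) (a : Fin 4) : Prop where
  nn : ∀ x i j, i < j → i = a ∨ j = a → 0 ≤ c x i j
  le : ∀ x i j, i < j → i = a ∨ j = a → c x i j ≤ B
  wall : ∀ x i j, i < j → i = a ∨ j = a →
    slb K (nx x i) ≠ slb K x ∨ slb K (nx x j) ≠ slb K x → c x i j ≤ ε

theorem Cpl.kap_nn {B ε : ℝ} {K : ℕ} {c : Sit n → Fin 4 → Fin 4 → ℝ} {a : Fin 4}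
    (h : Cpl B ε K c a) (e : Sit n × Fin 4) : 0 ≤ kap a c e := by
  unfold kap cpl
  split_ifs with h1 h2 h3 h4
  · exact le_rfl
  · exact h.nn _ _ _ h2 (Or.inl rfl)
  · exact le_rfl
  · exact h.nn _ _ _ (lt_of_le_of_ne (not_lt.1 h2) h1) (Or.inr rfl)
  · exact le_rfl

theorem Cpl.kap_le {B ε : ℝ} (hB : 0 ≤ B) {K : ℕ} {c : Sit n → Fin 4 → Fin 4 → ℝ} {a : Fin 4}
    (h : Cpl B ε K c a) (e : Sit n × Fin 4) : kap a c e ≤ B := by
  unfold kap cpl
  split_ifs with h1 h2 h3 h4
  · exact hB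
  · exact h.le _ _ _ h2 (Or.inl rfl)
  · exact hB
  · exact h.le _ _ _ (lt_of_le_of_ne (not_lt.1 h2) h1) (Or.inr rfl)
  · exact hB

theorem Cpl.kap_wall {B ε : ℝ} (hε : 0 ≤ ε) {K : ℕ} {c : Sit n → Fin 4 → Fin 4 → ℝ} {a : Fin 4}
    (h : Cpl B ε K c a) (e : Sit n × Fin 4)
    (hw : (e.1 a : ℕ) + 1 < n → (e.1 e.2 : ℕ) + 1 < n →
      slb K (nx e.1 a) ≠ slb K e.1 ∨ slb K (nx e.1 e.2) ≠ slb K e.1) :
    kap a c e ≤ ε := by
  unfold kap cpl
  split_ifs with h1 h2 h3 h4
  · exact hε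
  · exact h.wall _ _ _ h2 (Or.inl rfl) (hw h3.1 h3.2)
  · exact hε
  · exact h.wall _ _ _ (lt_of_le_of_ne (not_lt.1 h2) h1) (Or.inr rfl) (hw h4.2 h4.1).symm
  · exact hε

theorem pr_le {a : Fin 4} {c : Sit n → Fin 4 → Fin 4 → ℝ} {e : Sit n × Fin 4} {B : ℝ}
    (h : kap a c e ≤ B) : pr N a c e ≤ 1 - Real.exp (-(2 * N * B)) := by
  unfold pr
  have h1 : -(2 * N * B) ≤ -(2 * N * kap a c e) := by
    have := mul_le_mul_of_nonneg_left h (show 0 ≤ 2 * (N : ℝ) by positivity)
    linarith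
  have := Real.exp_le_exp.2 h1
  linarith

theorem wall_count (x R K : ℕ) (hK : 0 < K) :
    R / K ≤ ((range R).filter fun t => (x + t + 1) / K ≠ (x + t) / K).card := by
  have key : (x + R) / K ≤
      x / K + ((range R).filter fun t => (x + t + 1) / K ≠ (x + t) / K).card := by
    induction R with
    | zero => simp
    | succ R ih =>
      rw [Finset.range_add_one, Finset.filter_insert]
      by_cases h : (x + R + 1) / K ≠ (x + R) / K
      · rw [if_pos h, Finset.card_insert_of_notMem (by simp)]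
        have h1 : (x + R + 1) / K ≤ (x + R) / K + 1 := by
          rw [Nat.succ_div]
          split_ifs <;> omega
        have h2 : x + (R + 1) = x + R + 1 := by ring
        rw [h2]
        omega
      · rw [if_neg h]
        push Not at h
        have h2 : x + (R + 1) = x + R + 1 := by ring
        rw [h2, h]
        exact ih
  have h1 := Nat.add_div_le_add_div x R K
  omega

theorem prod_le_pow {R : ℕ} {P : ℕ → ℝ} {θ : ℝ} (S : Finset ℕ) (hS : S ⊆ range R)
    (h0 : ∀ t, 0 ≤ P t) (h1 : ∀ t, P t ≤ 1) (hθ : ∀ t ∈ S, P t ≤ θ) :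
    ∏ t ∈ range R, P t ≤ θ ^ S.card := by
  classical
  rw [← Finset.prod_sdiff hS, ← Finset.prod_const]
  have h2 : ∏ t ∈ range R \ S, P t ≤ 1 := Finset.prod_le_one (fun t _ => h0 t) fun t _ => h1 t
  have h3 : ∏ t ∈ S, P t ≤ ∏ t ∈ S, θ := Finset.prod_le_prod (fun t _ => h0 t) hθ
  have h4 : 0 ≤ ∏ t ∈ S, P t := Finset.prod_nonneg fun t _ => h0 t
  calc (∏ t ∈ range R \ S, P t) * ∏ t ∈ S, P t ≤ 1 * ∏ t ∈ S, P t :=
        mul_le_mul_of_nonneg_right h2 h4
    _ ≤ _ := by rw [one_mul]; exact h3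

/-- the probability product for the layers of a rectangle -/
noncomputable def PR (N : ℕ) (c : Sit n → Fin 4 → Fin 4 → ℝ) (x : Sit n) (a b : Fin 4)
    (R L : ℕ) : ℝ :=
  ∏ t ∈ range R, PC Prod.fst (tg a) (pr N a c) Set.univ (mv x a t) (mv (mv x b L) a t)

/-- the constants -/
theorem consts (N : ℕ) {B : ℝ} (hB : 0 ≤ B) {K : ℕ} (hK : 0 < K) :
    ∃ (l : ℕ) (ε pw : ℝ), 0 < ε ∧ 0 ≤ pw ∧ 1 - Real.exp (-(2 * N * ε)) ≤ pw ∧
      2 * ((K * K : ℕ) : ℝ) *
        (1 - (1 - (1 - Real.exp (-(2 * N * B)))) ^ (K * K)) ^ l ≤ 1 / 4 ∧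
      4 * (((2 * l + 1) * (K * K) : ℕ) : ℝ) * pw ≤ 1 / 4 := by
  set δ : ℝ := (1 - (1 - Real.exp (-(2 * N * B)))) ^ (K * K) with hδ
  have hδ0 : 0 < δ := by
    rw [hδ, sub_sub_cancel]
    positivity
  have hδ1 : δ ≤ 1 := by
    rw [hδ, sub_sub_cancel]
    refine pow_le_one₀ (Real.exp_pos _).le (Real.exp_le_one_iff.2 ?_)
    have := mul_nonneg (Nat.cast_nonneg (α := ℝ) N) hB
    linarith
  have hKK : (0 : ℝ) < ((K * K : ℕ) : ℝ) := by exact_mod_cast Nat.mul_pos hK hK
  obtain ⟨l, hl⟩ := exists_pow_lt_of_lt_one (x := (1 / 4) / (2 * ((K * K : ℕ) : ℝ)))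
    (by positivity) (show 1 - δ < 1 by linarith)
  have hD : (0 : ℝ) < (((2 * l + 1) * (K * K) : ℕ) : ℝ) := by
    have : 0 < (2 * l + 1) * (K * K) := Nat.mul_pos (by omega) (Nat.mul_pos hK hK)
    exact_mod_cast this
  refine ⟨l, (1 / 16 / (((2 * l + 1) * (K * K) : ℕ) : ℝ)) / (2 * N + 1),
    1 / 16 / (((2 * l + 1) * (K * K) : ℕ) : ℝ), by positivity, by positivity, ?_, ?_, ?_⟩
  · have h1 := Real.add_one_le_exp (-(2 * N *
      ((1 / 16 / (((2 * l + 1) * (K * K) : ℕ) : ℝ)) / (2 * N + 1))))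
    have h2 : 2 * N * ((1 / 16 / (((2 * l + 1) * (K * K) : ℕ) : ℝ)) / (2 * N + 1)) ≤
        1 / 16 / (((2 * l + 1) * (K * K) : ℕ) : ℝ) := by
      rw [← mul_div_assoc, div_le_iff₀ (by positivity)]
      have : 0 ≤ 1 / 16 / (((2 * l + 1) * (K * K) : ℕ) : ℝ) := by positivity
      nlinarith
    linarith
  · rw [lt_div_iff₀ (by positivity)] at hl
    linarith
  · rw [div_div, mul_one_div, div_le_iff₀ (by positivity)]
    linarith

theorem four_cases (a : Fin 4) : ∃ b c d : Fin 4, (∀ i : Fin 4, i = a ∨ i = b ∨ i = c ∨ i = d) ∧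
    a ≠ b ∧ a ≠ c ∧ a ≠ d ∧ b ≠ c ∧ b ≠ d ∧ c ≠ d ∧ (a < 2 → c = 2 ∧ d = 3) := by
  revert a
  decide

theorem two_three : ∀ a : Fin 4, ¬a < 2 → a = 2 ∨ a = 3 := by decide

theorem slb_ne {K : ℕ} {x : Sit n} {k : Fin 4} (hk : k = 2 ∨ k = 3) (hlt : (x k : ℕ) + 1 < n)
    (h : ((x k : ℕ) + 1) / K ≠ (x k : ℕ) / K) : slb K (nx x k) ≠ slb K x := by
  intro h1
  unfold slb at h1
  rw [Prod.mk.injEq] at h1
  rcases hk with rfl | rfl
  · have := h1.1
    rw [nx_lt x hlt] at this
    exact h this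
  · have := h1.2
    rw [nx_lt x hlt] at this
    exact h this

/-- **The percolation estimate behind the area law.** -/
theorem area_core (N : ℕ) {B : ℝ} (hB : 0 ≤ B) {K : ℕ} (hK : 0 < K) :
    ∃ ε m : ℝ, 0 < ε ∧ 0 < m ∧ ∀ (n : ℕ) (c : Sit n → Fin 4 → Fin 4 → ℝ) (a : Fin 4),
      Cpl B ε K c a → ∀ (x : Sit n) (b : Fin 4) (R L : ℕ), a ≠ b → (x a : ℕ) + R < n →
      (x b : ℕ) + L < n → a < 2 ∨ K ≤ R ∨ L < K →
        PR N c x a b R L ≤ Real.exp (-m * (R * L)) := by
  obtain ⟨l, ε, pw, hε, hpw0, hεw, hθ, hw⟩ := consts N hB hK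
  set pB : ℝ := 1 - Real.exp (-(2 * N * B)) with hpB
  have hNB : 0 ≤ N * B := mul_nonneg (Nat.cast_nonneg N) hB
  have hpB0 : 0 ≤ pB := by
    have := Real.exp_le_one_iff.2 (show -(2 * N * B) ≤ 0 by linarith)
    rw [hpB]; linarith
  have hpB1 : pB < 1 := by
    have := Real.exp_pos (-(2 * N * B))
    rw [hpB]; linarith
  -- the trivial constant
  set ρ : ℝ := 1 - (1 - pB) ^ 8 / 2 with hρ
  have h8 : 0 < (1 - pB) ^ 8 := pow_pos (by linarith) _
  have h81 : (1 - pB) ^ 8 ≤ 1 := pow_le_one₀ (by linarith) (by linarith)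
  have hρ1 : ρ < 1 := by rw [hρ]; linarith
  have hρ2 : 1 / 2 ≤ ρ := by rw [hρ]; linarith
  have hρ0 : 0 < ρ := by linarith
  have hlog : 0 < -Real.log ρ := by
    have := Real.log_neg hρ0 hρ1
    linarith
  have hM : (0 : ℝ) < 2 * ((l + K + 1 : ℕ) : ℝ) := by positivity
  set m₁ : ℝ := -Real.log ρ / (2 * ((l + K + 1 : ℕ) : ℝ)) with hm₁
  have hm₁0 : 0 < m₁ := div_pos hlog hM
  have hKr : (0 : ℝ) < K := by exact_mod_cast hK
  have hK1 : (1 : ℝ) ≤ K := by exact_mod_cast hK
  refine ⟨ε, m₁ / (2 * K), hε, by positivity, ?_⟩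
  intro n c a hc x b R L hab hR hL hcase
  have hprb : Prb (pr N a c) := pr_prb hc.kap_nn
  have hpall : ∀ e, pr N a c e ≤ pB := fun e => pr_le (hc.kap_le hB e)
  -- decay in good layers
  have decay : ∀ (u v : Sit n) (D : ℕ),
      (a < 2 ∨ ((u a : ℕ) + 1) / K ≠ (u a : ℕ) / K) → dj b u v = D →
      PC Prod.fst (tg a) (pr N a c) Set.univ u v ≤ Real.exp (-m₁ * D) := by
    intro u v D hgood hD
    rcases Nat.eq_zero_or_pos D with hD0 | hDpos
    · rw [hD0, Nat.cast_zero, mul_zero, Real.exp_zero]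
      exact PC_le_one hprb _ _ _
    obtain ⟨b', c', d', hcov, n1, n2, n3, n4, n5, n6, n7⟩ := four_cases a
    set k := D / (l + K + 1) with hk
    have hkD : k * (l + K + 1) ≤ dj b u v := by
      rw [hD]; exact Nat.div_mul_le_self _ _
    have hpwall : ∀ (z : Sit n) (k : Fin 4), (z a : ℕ) = u a → k = c' ∨ k = d' →
        ((z k : ℕ) + 1) / K ≠ (z k : ℕ) / K → pr N a c (z, k) ≤ pw := by
      intro z k hz hk hzk
      refine (pr_le (hc.kap_wall hε.le (z, k) ?_)).trans hεw
      intro hza hzk'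
      rcases hgood with h2 | h2
      · right
        obtain ⟨hc2, hd3⟩ := n7 h2
        refine slb_ne ?_ hzk' hzk
        rw [← hc2, ← hd3]; exact hk
      · by_cases ha2 : a < 2
        · right
          obtain ⟨hc2, hd3⟩ := n7 ha2
          refine slb_ne ?_ hzk' hzk
          rw [← hc2, ← hd3]; exact hk
        · left
          refine slb_ne (k := a) ?_ hza ?_
          · exact two_three a ha2
          · show ((z a : ℕ) + 1) / K ≠ (z a : ℕ) / K
            rw [hz]; exact h2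
    have b1 := tube_decay hcov n1 n2 n3 n4 n5 n6 hK hprb hpB0 hpB1.le hpall hpw0
      (A := (u a : ℕ)) hpwall hθ hw hab.symm u v rfl k hkD
    have huv : u ≠ v := by
      rintro rfl
      unfold dj at hD
      omega
    have b2 := triv_bound (a := a) hprb hpB0 hpB1.le hpall huv
    have b2' : PC Prod.fst (tg a) (pr N a c) Set.univ u v ≤ ρ := b2.trans (by rw [hρ]; linarith)
    have b3 : PC Prod.fst (tg a) (pr N a c) Set.univ u v ≤ ρ ^ (max 1 k) := by
      rcases le_total 1 k with h1k | h1k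
      · rw [max_eq_right h1k]
        exact b1.trans (pow_le_pow_left₀ (by norm_num) hρ2 k)
      · rw [max_eq_left h1k, pow_one]
        exact b2'
    refine b3.trans ?_
    have b4 : D < (k + 1) * (l + K + 1) := by
      rw [hk]
      have := Nat.lt_div_mul_add (a := D) (b := l + K + 1) (by omega)
      have h2 : (D / (l + K + 1) + 1) * (l + K + 1) = D / (l + K + 1) * (l + K + 1) + (l + K + 1) := by
        ring
      omega
    have b5 : (D : ℝ) ≤ (max 1 k : ℕ) * (2 * ((l + K + 1 : ℕ) : ℝ)) := by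
      have h1 : k + 1 ≤ 2 * max 1 k := by omega
      have h2 : D ≤ max 1 k * (2 * (l + K + 1)) := by
        calc D ≤ (k + 1) * (l + K + 1) := b4.le
          _ ≤ (2 * max 1 k) * (l + K + 1) := Nat.mul_le_mul_right _ h1
          _ = _ := by ring
      exact_mod_cast h2
    rw [← Real.exp_log (pow_pos hρ0 (max 1 k)), Real.log_pow]
    refine Real.exp_le_exp.2 ?_
    have b6 : m₁ * D ≤ m₁ * ((max 1 k : ℕ) * (2 * ((l + K + 1 : ℕ) : ℝ))) :=
      mul_le_mul_of_nonneg_left b5 hm₁0.le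
    have b7 : m₁ * ((max 1 k : ℕ) * (2 * ((l + K + 1 : ℕ) : ℝ))) =
        (max 1 k : ℕ) * (-Real.log ρ) := by
      rw [hm₁]
      field_simp
    linarith
  -- coordinates
  have hxy : ∀ t : ℕ, dj b (mv x a t) (mv (mv x b L) a t) = L := by
    intro t
    unfold dj
    rw [mv_ne x hab.symm, mv_ne (mv x b L) hab.symm, mv_eq x hL]
    omega
  have hxa : ∀ t : ℕ, t < R → (mv x a t a : ℕ) = x a + t := by
    intro t ht
    exact mv_eq x (by omega)
  have P0 : ∀ t : ℕ,
      0 ≤ PC Prod.fst (tg a) (pr N a c) Set.univ (mv x a t) (mv (mv x b L) a t) :=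
    fun t => PC_nonneg hprb _ _ _
  have P1 : ∀ t : ℕ,
      PC Prod.fst (tg a) (pr N a c) Set.univ (mv x a t) (mv (mv x b L) a t) ≤ 1 :=
    fun t => PC_le_one hprb _ _ _
  have hm12 : m₁ / (2 * K) ≤ m₁ := div_le_self hm₁0.le (by linarith)
  have hRL : (0 : ℝ) ≤ (R : ℝ) * L := by positivity
  rcases hcase with ha | hKR | hLK
  · -- time directions `0` and `1`
    have h1 := prod_le_pow (R := R) (range R) subset_rfl P0 P1
      (θ := Real.exp (-m₁ * L)) fun t _ => decay _ _ L (Or.inl ha) (hxy t)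
    refine h1.trans ?_
    rw [Finset.card_range, ← Real.exp_nat_mul]
    refine Real.exp_le_exp.2 ?_
    have := mul_le_mul_of_nonneg_right hm12 hRL
    linarith
  · -- any time direction, by the walls
    have h1 := prod_le_pow (R := R)
      ((range R).filter fun t => ((x a : ℕ) + t + 1) / K ≠ ((x a : ℕ) + t) / K)
      (Finset.filter_subset _ _) P0 P1
      (θ := Real.exp (-m₁ * L)) fun t ht => by
        have ht' := Finset.mem_filter.1 ht
        refine decay _ _ L (Or.inr ?_) (hxy t)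
        rw [hxa t (Finset.mem_range.1 ht'.1)]
        exact ht'.2
    refine h1.trans ?_
    rw [← Real.exp_nat_mul]
    refine Real.exp_le_exp.2 ?_
    have h2 := wall_count (x a) R K hK
    have h3 : (R : ℝ) ≤ 2 * K *
        (((range R).filter fun t => ((x a : ℕ) + t + 1) / K ≠ ((x a : ℕ) + t) / K).card : ℝ) := by
      have h4 : R < (R / K + 1) * K := by
        have := Nat.lt_div_mul_add (a := R) (b := K) hK
        have h5 : (R / K + 1) * K = R / K * K + K := by ring
        omega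
      have h5 : 1 ≤ R / K := (Nat.one_le_div_iff hK).2 hKR
      have h6 : (R / K + 1) * K ≤ (2 * (R / K)) * K := Nat.mul_le_mul_right _ (by omega)
      have h7 : R ≤ 2 * K * (R / K) := by
        have : (2 * (R / K)) * K = 2 * K * (R / K) := by ring
        omega
      have h8 : R ≤ 2 * K * ((range R).filter fun t =>
          ((x a : ℕ) + t + 1) / K ≠ ((x a : ℕ) + t) / K).card :=
        h7.trans (Nat.mul_le_mul_left _ h2)
      exact_mod_cast h8
    have h9 : m₁ / (2 * K) * (R * L) ≤ m₁ * L *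
        (((range R).filter fun t => ((x a : ℕ) + t + 1) / K ≠ ((x a : ℕ) + t) / K).card : ℝ) := by
      have h10 : m₁ / (2 * K) * (R * L) ≤ m₁ / (2 * K) * ((2 * K *
        (((range R).filter fun t => ((x a : ℕ) + t + 1) / K ≠ ((x a : ℕ) + t) / K).card : ℝ)) * L) :=
        mul_le_mul_of_nonneg_left (mul_le_mul_of_nonneg_right h3 (Nat.cast_nonneg L))
          (by positivity)
      refine h10.trans_eq ?_
      field_simp
    linarith
  · -- small rectangles
    rcases Nat.eq_zero_or_pos L with h0 | hLpos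
    · rw [h0, Nat.cast_zero, mul_zero, mul_zero, Real.exp_zero]
      exact Finset.prod_le_one (fun t _ => PC_nonneg hprb _ _ _) fun t _ => PC_le_one hprb _ _ _
    have h1 := prod_le_pow (R := R) (range R) subset_rfl P0 P1
      (θ := ρ) fun t _ => by
        have hne : mv x a t ≠ mv (mv x b L) a t := by
          intro h
          have := hxy t
          rw [← h] at this
          unfold dj at this
          omega
        exact (triv_bound (a := a) hprb hpB0 hpB1.le hpall hne).trans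
          (by rw [hρ]; linarith)
    refine h1.trans ?_
    rw [Finset.card_range, ← Real.exp_log (pow_pos hρ0 R), Real.log_pow]
    refine Real.exp_le_exp.2 ?_
    have h2 : m₁ ≤ -Real.log ρ := by
      rw [hm₁]
      refine div_le_self hlog.le ?_
      have : (1 : ℝ) ≤ ((l + K + 1 : ℕ) : ℝ) := by exact_mod_cast (by omega : 1 ≤ l + K + 1)
      linarith
    have h3 : m₁ / (2 * K) * (R * L) ≤ m₁ * R := by
      rw [div_mul_eq_mul_div, div_le_iff₀ (by positivity)]
      have hLK' : (L : ℝ) ≤ 2 * K := by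
        have : (L : ℝ) ≤ K := by exact_mod_cast hLK.le
        linarith
      have := mul_le_mul_of_nonneg_left hLK' (show 0 ≤ m₁ * R by positivity)
      linarith
    have h4 : m₁ * R ≤ -Real.log ρ * R := mul_le_mul_of_nonneg_right h2 (Nat.cast_nonneg R)
    linarith

end Pool.Agent.W653.AL
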