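import Pool.Agent.W653.AL.Iter

/-!
# Percolation in the layers of a four-dimensional box: decay in tubes
-/

set_option autoImplicit false
set_option linter.unusedSectionVars false
set_option linter.unusedDecidableInType false
set_option linter.unusedFintypeInType false

namespace Pool.Agent.W653.AL

open Finset

/-- the sites of a box -/
abbrev Sit (n : ℕ) : Type := Fin 4 → Fin n

variable {n : ℕ}

/-- The site `x + e i`, or `x` if this is outside the box. -/
def nx (x : Sit n) (i : Fin 4) : Sit n :=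
  if h : (x i : ℕ) + 1 < n then Function.update x i ⟨x i + 1, h⟩ else x

theorem nx_ne (x : Sit n) {i j : Fin 4} (h : j ≠ i) : nx x i j = x j := by
  unfold nx
  split_ifs
  · exact Function.update_of_ne h _ _
  · rfl

theorem nx_lt (x : Sit n) {i : Fin 4} (h : (x i : ℕ) + 1 < n) : (nx x i i : ℕ) = x i + 1 := by
  unfold nx
  rw [dif_pos h, Function.update_self]

theorem nx_ge (x : Sit n) {i : Fin 4} (h : ¬(x i : ℕ) + 1 < n) : nx x i = x := by
  unfold nx
  rw [dif_neg h]

theorem nx_bd (x : Sit n) (i j : Fin 4) : (x j : ℕ) ≤ nx x i j ∧ (nx x i j : ℕ) ≤ x j + 1 := by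
  by_cases hij : j = i
  · subst hij
    by_cases h : (x j : ℕ) + 1 < n
    · rw [nx_lt x h]; omega
    · rw [nx_ge x h]; omega
  · rw [nx_ne x hij]; omega

/-- the second end of an edge perpendicular to `a` -/
def tg (a : Fin 4) (e : Sit n × Fin 4) : Sit n := if e.2 = a then e.1 else nx e.1 e.2

theorem tg_self (a : Fin 4) (u : Sit n) : tg a (u, a) = u := by simp [tg]

theorem tg_ne {a k : Fin 4} (h : k ≠ a) (u : Sit n) : tg a (u, k) = nx u k := by simp [tg, h]

theorem tg_a (a : Fin 4) (e : Sit n × Fin 4) : tg a e a = e.1 a := by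
  unfold tg
  split_ifs with h
  · rfl
  · exact nx_ne _ (Ne.symm h)

theorem tg_bd (a : Fin 4) (e : Sit n × Fin 4) (j : Fin 4) :
    (e.1 j : ℕ) ≤ tg a e j ∧ (tg a e j : ℕ) ≤ e.1 j + 1 := by
  unfold tg
  split_ifs with h
  · omega
  · exact nx_bd _ _ _

theorem div_close {u v K : ℕ} (hK : 0 < K) (h : u / K = v / K) : u < v + K := by
  have h1 := Nat.div_add_mod u K
  have h2 := Nat.div_add_mod v K
  have h3 := Nat.mod_lt u hK
  rw [h] at h1
  omega

/-- a piece of a tube -/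
def Tb (n : ℕ) (a b c d : Fin 4) (K A : ℕ) (I : Finset ℕ) (α q α' q' : ℕ) : Finset (Sit n) :=
  Finset.univ.filter fun v => (v a : ℕ) = A ∧ (v b : ℕ) ∈ I ∧ ((v c : ℕ) + α) / K = q ∧
    ((v d : ℕ) + α') / K = q'

theorem Tb_card {a b c d : Fin 4} (hcov : ∀ i : Fin 4, i = a ∨ i = b ∨ i = c ∨ i = d) {K : ℕ}
    (hK : 0 < K) (A : ℕ) (I : Finset ℕ) (α q α' q' : ℕ) :
    (Tb n a b c d K A I α q α' q').card ≤ I.card * (K * K) := by
  have h1 : (I ×ˢ (range K ×ˢ range K)).card = I.card * (K * K) := by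
    rw [Finset.card_product, Finset.card_product, Finset.card_range]
  rw [← h1]
  refine Finset.card_le_card_of_injOn
    (fun v : Sit n => ((v b : ℕ), (((v c : ℕ) + α) % K, ((v d : ℕ) + α') % K))) ?_ ?_
  · intro v hv
    have hv' := (Finset.mem_filter.1 (Finset.mem_coe.1 hv)).2
    rw [Finset.mem_coe, Finset.mem_product, Finset.mem_product, Finset.mem_range, Finset.mem_range]
    exact ⟨hv'.2.1, Nat.mod_lt _ hK, Nat.mod_lt _ hK⟩
  · intro v hv v' hv' h
    have h2 := (Finset.mem_filter.1 (Finset.mem_coe.1 hv)).2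
    have h3 := (Finset.mem_filter.1 (Finset.mem_coe.1 hv')).2
    simp only [Prod.mk.injEq] at h
    obtain ⟨e1, e2, e3⟩ := h
    have c1 := Nat.div_add_mod ((v c : ℕ) + α) K
    have c2 := Nat.div_add_mod ((v' c : ℕ) + α) K
    rw [h2.2.2.1, e2] at c1
    rw [h3.2.2.1] at c2
    have d1 := Nat.div_add_mod ((v d : ℕ) + α') K
    have d2 := Nat.div_add_mod ((v' d : ℕ) + α') K
    rw [h2.2.2.2, e3] at d1
    rw [h3.2.2.2] at d2
    funext i
    rcases hcov i with rfl | rfl | rfl | rfl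
    · exact Fin.ext (h2.1.trans h3.1.symm)
    · exact Fin.ext e1
    · exact Fin.ext (by omega)
    · exact Fin.ext (by omega)

/-- the block of `x` -/
def Bk (a b c d : Fin 4) (K l : ℕ) (x : Sit n) : Set (Sit n) :=
  {v | (v a : ℕ) = x a ∧ ((x b : ℕ) ≤ v b + l ∧ (v b : ℕ) ≤ x b + l) ∧
    (v c : ℕ) / K = (x c : ℕ) / K ∧ (v d : ℕ) / K = (x d : ℕ) / K}

theorem cross_up {a b : Fin 4} {S : Set (Sit n)} {w : Sit n × Fin 4 → Bool} {x v : Sit n}
    (hxS : x ∈ S) (h : Cn Prod.fst (tg a) S w x v) {m : ℕ} (h1 : (x b : ℕ) ≤ m)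
    (h2 : m < v b) : ∃ u ∈ S, (u b : ℕ) = m ∧ w (u, b) = true := by
  by_contra hno
  push Not at hno
  have key : ∀ u, Cn Prod.fst (tg a) S w x u → (u b : ℕ) ≤ m := by
    intro u hu
    induction hu with
    | refl => exact h1
    | @tail y z _ hst ih =>
      obtain ⟨hyS, hzS, e, hwe, he⟩ := hst
      rcases he with ⟨e1, e2⟩ | ⟨e1, e2⟩
      · by_contra hz
        have hbd := tg_bd a e b
        rw [e1, e2] at hbd
        have hyb : (y b : ℕ) = m := by omega
        by_cases hk : e.2 = b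
        · have : e = (y, b) := Prod.ext e1 hk
          exact hno y hyS hyb (by rw [← this]; exact hwe)
        · have : tg a e b = e.1 b := by
            unfold tg
            split_ifs
            · rfl
            · exact nx_ne _ (Ne.symm hk)
          rw [e1, e2] at this
          rw [this] at hz
          exact hz ih
      · have hbd := tg_bd a e b
        rw [e1, e2] at hbd
        omega
  have := key v h
  omega

/-- the edges of the tube from level `m` to level `m + 1` -/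
def Cut (n : ℕ) (a b c d : Fin 4) (K A q q' : ℕ) (m : ℕ) : Finset (Sit n × Fin 4) :=
  (Tb n a b c d K A {m} 0 q 0 q').image fun v => (v, b)

theorem Cut_card {a b c d : Fin 4} (hcov : ∀ i : Fin 4, i = a ∨ i = b ∨ i = c ∨ i = d) {K : ℕ}
    (hK : 0 < K) (A q q' m : ℕ) : (Cut n a b c d K A q q' m).card ≤ K * K := by
  refine Finset.card_image_le.trans ((Tb_card hcov hK A {m} 0 q 0 q').trans ?_)
  rw [Finset.card_singleton, one_mul]

theorem Cut_disj {a b c d : Fin 4} {K A q q' : ℕ} {i j : ℕ} (h : i ≠ j) :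
    Disjoint (Cut n a b c d K A q q' i) (Cut n a b c d K A q q' j) := by
  rw [Finset.disjoint_left]
  intro e h1 h2
  obtain ⟨u, hu, hue⟩ := Finset.mem_image.1 h1
  obtain ⟨v, hv, hve⟩ := Finset.mem_image.1 h2
  have huv : u = v := by
    have := hue.trans hve.symm
    exact (Prod.mk.injEq _ _ _ _ ▸ this).1
  have h3 := (Finset.mem_filter.1 hu).2.2.1
  have h4 := (Finset.mem_filter.1 hv).2.2.1
  rw [Finset.mem_singleton] at h3 h4
  rw [huv] at h3
  exact h (h3.symm.trans h4)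

theorem PC_far {a b c d : Fin 4} (hcov : ∀ i : Fin 4, i = a ∨ i = b ∨ i = c ∨ i = d) {K : ℕ}
    (hK : 0 < K) {p : Sit n × Fin 4 → ℝ} (hp : Prb p) {pB : ℝ} (hpB0 : 0 ≤ pB) (hpB1 : pB ≤ 1)
    (hpB : ∀ e, p e ≤ pB) {l : ℕ} {x v : Sit n} (hv : v ∈ Bk a b c d K l x)
    (hvl : (v b : ℕ) = x b + l ∨ (v b : ℕ) + l = x b) :
    PC Prod.fst (tg a) p (Bk a b c d K l x) x v ≤ (1 - (1 - pB) ^ (K * K)) ^ l := by
  have hx : x ∈ Bk a b c d K l x := ⟨rfl, ⟨by omega, by omega⟩, rfl, rfl⟩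
  have hmem : ∀ u ∈ Bk a b c d K l x, ∀ m : ℕ, (u b : ℕ) = m →
      (u, b) ∈ Cut n a b c d K (x a) ((x c : ℕ) / K) ((x d : ℕ) / K) m := by
    intro u hu m hm
    refine Finset.mem_image.2 ⟨u, Finset.mem_filter.2 ⟨Finset.mem_univ _, hu.1, ?_, ?_, ?_⟩, rfl⟩
    · rw [Finset.mem_singleton]; exact hm
    · rw [Nat.add_zero]; exact hu.2.2.1
    · rw [Nat.add_zero]; exact hu.2.2.2
  rcases hvl with hvl | hvl
  · refine PC_cut hp (fun h => Cut n a b c d K (x a) ((x c : ℕ) / K) ((x d : ℕ) / K) (x b + h))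
      (fun i j hij => Cut_disj (by omega)) hpB0 hpB1 (fun _ e _ => hpB e)
      (fun _ => Cut_card hcov hK _ _ _ _) l ?_
    intro w hw h hh
    obtain ⟨u, huS, hum, hwu⟩ := cross_up (b := b) hx hw (m := x b + h) (by omega) (by omega)
    exact ⟨(u, b), hmem u huS _ hum, hwu⟩
  · refine PC_cut hp (fun h => Cut n a b c d K (x a) ((x c : ℕ) / K) ((x d : ℕ) / K) (v b + h))
      (fun i j hij => Cut_disj (by omega)) hpB0 hpB1 (fun _ e _ => hpB e)
      (fun _ => Cut_card hcov hK _ _ _ _) l ?_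
    intro w hw h hh
    obtain ⟨u, huS, hum, hwu⟩ := cross_up (b := b) hv (Cn_symm hw) (m := v b + h) (by omega)
      (by omega)
    exact ⟨(u, b), hmem u huS _ hum, hwu⟩

theorem sum_four {a b c d : Fin 4} (hcov : ∀ i : Fin 4, i = a ∨ i = b ∨ i = c ∨ i = d)
    (F : Fin 4 → ℝ) (hF : ∀ i, 0 ≤ F i) : ∑ i, F i ≤ F a + F b + F c + F d := by
  have h1 : (Finset.univ : Finset (Fin 4)) ⊆ {a, b, c, d} := by
    intro i _
    simpa using hcov i
  have h2 : ∀ (s : Finset (Fin 4)) (i : Fin 4), ∑ j ∈ insert i s, F j ≤ F i + ∑ j ∈ s, F j := by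
    intro s i
    by_cases hi : i ∈ s
    · rw [Finset.insert_eq_of_mem hi]; linarith [hF i]
    · rw [Finset.sum_insert hi]
  have h3 := h2 {b, c, d} a
  have h4 := h2 {c, d} b
  have h5 := h2 {d} c
  rw [Finset.sum_singleton] at h5
  have h6 := Finset.sum_le_sum_of_subset_of_nonneg h1 (fun i _ _ => hF i)
  linarith

end Pool.Agent.W653.AL
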