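import Pool.Agent.W653.AL.Perc

/-!
# Percolation: iterating the inequality of Simon and Lieb, closed edges, cut sets
-/

set_option autoImplicit false
set_option linter.unusedSectionVars false
set_option linter.unusedDecidableInType false
set_option linter.unusedFintypeInType false

namespace Pool.Agent.W653.AL

open Finset

variable {X E : Type} [Fintype X] [DecidableEq X] [Fintype E] [DecidableEq E] {s t : E → X}

theorem Cn_symm {A : Set X} {w : E → Bool} {x y : X} (h : Cn s t A w x y) : Cn s t A w y x := by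
  induction h with
  | refl => exact Relation.ReflTransGen.refl
  | tail _ h2 ih => exact Relation.ReflTransGen.head (St.symm h2) ih

theorem bd_le {p : E → ℝ} (hp : Prb p) {S : Set X} {x : X} {F : X → ℝ} {c : ℝ}
    (h1 : ∀ e, p e ≠ 0 → s e ∈ S → t e ∉ S → F (t e) ≤ c)
    (h2 : ∀ e, p e ≠ 0 → t e ∈ S → s e ∉ S → F (s e) ≤ c) :
    bd s t p S x F ≤ c * bd s t p S x fun _ => 1 := by
  unfold bd
  rw [Finset.mul_sum]
  refine Finset.sum_le_sum fun e _ => ?_
  have a1 : ind (s e ∈ S ∧ t e ∉ S) * PC s t p S x (s e) * p e * F (t e) ≤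
      c * (ind (s e ∈ S ∧ t e ∉ S) * PC s t p S x (s e) * p e * 1) := by
    by_cases h0 : p e = 0
    · rw [h0]; simp
    by_cases h : s e ∈ S ∧ t e ∉ S
    · have := h1 e h0 h.1 h.2
      have h3 : 0 ≤ ind (s e ∈ S ∧ t e ∉ S) * PC s t p S x (s e) * p e :=
        mul_nonneg (mul_nonneg (ind_nonneg _) (PC_nonneg hp _ _ _)) (hp e).1
      nlinarith
    · rw [ind_false h]; simp
  have a2 : ind (t e ∈ S ∧ s e ∉ S) * PC s t p S x (t e) * p e * F (s e) ≤
      c * (ind (t e ∈ S ∧ s e ∉ S) * PC s t p S x (t e) * p e * 1) := by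
    by_cases h0 : p e = 0
    · rw [h0]; simp
    by_cases h : t e ∈ S ∧ s e ∉ S
    · have := h2 e h0 h.1 h.2
      have h3 : 0 ≤ ind (t e ∈ S ∧ s e ∉ S) * PC s t p S x (t e) * p e :=
        mul_nonneg (mul_nonneg (ind_nonneg _) (PC_nonneg hp _ _ _)) (hp e).1
      nlinarith
    · rw [ind_false h]; simp
  linarith

/-- iteration -/
theorem PC_iter {p : E → ℝ} (hp : Prb p) (dist : X → X → ℕ) (M : ℕ) (S : X → Set X)
    (Gd : X → Prop) (hS : ∀ x, x ∈ S x)
    (hG : ∀ x e, Gd x → s e ∈ S x → t e ∉ S x → Gd (t e))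
    (hG' : ∀ x e, Gd x → t e ∈ S x → s e ∉ S x → Gd (s e))
    (h1 : ∀ x y e, s e ∈ S x → t e ∉ S x → dist x y ≤ dist (t e) y + (M + 1))
    (h1' : ∀ x y e, t e ∈ S x → s e ∉ S x → dist x y ≤ dist (s e) y + (M + 1))
    (h2 : ∀ x y, y ∈ S x → dist x y ≤ M)
    (h3 : ∀ x, Gd x → bd s t p (S x) x (fun _ => 1) ≤ 1 / 2) :
    ∀ (k : ℕ) (x y : X), Gd x → k * (M + 1) ≤ dist x y →
      PC s t p Set.univ x y ≤ (1 / 2) ^ k := by
  intro k
  induction k with
  | zero =>
    intro x y _ _
    rw [pow_zero]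
    exact PC_le_one hp _ _ _
  | succ k ih =>
    intro x y hx hxy
    have hy : y ∉ S x := by
      intro h
      have := h2 x y h
      have h4 : M + 1 ≤ (k + 1) * (M + 1) := Nat.le_mul_of_pos_left _ (Nat.succ_pos k)
      omega
    have h4 : (k + 1) * (M + 1) = k * (M + 1) + (M + 1) := by ring
    refine (simon_lieb hp (hS x) hy).trans ?_
    refine (bd_le (c := (1 / 2) ^ k) hp ?_ ?_).trans ?_
    · intro e _ he1 he2
      refine ih _ _ (hG x e hx he1 he2) ?_
      have := h1 x y e he1 he2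
      omega
    · intro e _ he1 he2
      refine ih _ _ (hG' x e hx he1 he2) ?_
      have := h1' x y e he1 he2
      omega
    · have := h3 x hx
      rw [pow_succ]
      exact mul_le_mul_of_nonneg_left this (by positivity)

/-- all edges of a finite set are closed -/
theorem Ex_closed (p : E → ℝ) (T : Finset E) :
    Ex p (fun w => ind (∀ e ∈ T, w e = false)) = ∏ e ∈ T, (1 - p e) := by
  have h := Ex_prod p fun e b => if e ∈ T then ind (b = false) else 1
  have h1 : (fun w : E → Bool => ∏ e, if e ∈ T then ind (w e = false) else 1) =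
      fun w => ind (∀ e ∈ T, w e = false) := by
    funext w
    by_cases hw : ∀ e ∈ T, w e = false
    · rw [ind_true hw]
      refine Finset.prod_eq_one fun e _ => ?_
      split_ifs with he
      · exact ind_true (hw e he)
      · rfl
    · rw [ind_false hw]
      push Not at hw
      obtain ⟨e, he, hwe⟩ := hw
      refine Finset.prod_eq_zero (Finset.mem_univ e) ?_
      rw [if_pos he]
      exact ind_false hwe
  rw [h1] at h
  rw [h, ← Finset.prod_subset (Finset.subset_univ T)]
  · refine Finset.prod_congr rfl fun e he => ?_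
    rw [if_pos he, if_pos he, ind_false (by simp), ind_true rfl]
    ring
  · intro e _ he
    rw [if_neg he, if_neg he]
    ring

theorem open_le {p : E → ℝ} (T : Finset E) {b : ℝ} {c : ℕ} (hb0 : 0 ≤ b)
    (hb1 : b ≤ 1) (hb : ∀ e ∈ T, p e ≤ b) (hc : T.card ≤ c) :
    Ex p (fun w => 1 - ind (∀ e ∈ T, w e = false)) ≤ 1 - (1 - b) ^ c := by
  rw [Ex_sub, Ex_one, Ex_closed]
  have h1 : (1 - b) ^ c ≤ (1 - b) ^ T.card :=
    pow_le_pow_of_le_one (by linarith) (by linarith) hc
  have h2 : (1 - b) ^ T.card ≤ ∏ e ∈ T, (1 - p e) := by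
    rw [← Finset.prod_const]
    exact Finset.prod_le_prod (fun e _ => by linarith) fun e he => by linarith [hb e he]
  linarith

theorem closed_nonneg (T : Finset E) (w : E → Bool) :
    0 ≤ 1 - ind (∀ e ∈ T, w e = false) := by
  linarith [ind_le_one (∀ e ∈ T, w e = false)]

/-- disjoint cut sets -/
theorem cut_le {p : E → ℝ} (hp : Prb p) (A : ℕ → Finset E)
    (hA : ∀ i j, i ≠ j → Disjoint (A i) (A j)) {b : ℝ} {c : ℕ} (hb0 : 0 ≤ b)
    (hb1 : b ≤ 1) (hb : ∀ i, ∀ e ∈ A i, p e ≤ b) (hc : ∀ i, (A i).card ≤ c) (l : ℕ) :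
    Ex p (fun w => ∏ h ∈ range l, (1 - ind (∀ e ∈ A h, w e = false))) ≤
      (1 - (1 - b) ^ c) ^ l := by
  induction l with
  | zero => simp [Ex_one]
  | succ l ih =>
    have h1 : (fun w : E → Bool => ∏ h ∈ range (l + 1), (1 - ind (∀ e ∈ A h, w e = false))) =
        fun w => (∏ h ∈ range l, (1 - ind (∀ e ∈ A h, w e = false))) *
          (1 - ind (∀ e ∈ A l, w e = false)) := by
      funext w
      rw [Finset.prod_range_succ]
    rw [h1, Ex_indep p {e | ∃ h < l, e ∈ A h}, pow_succ]
    · exact mul_le_mul ih (open_le (A l) hb0 hb1 (hb l) (hc l))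
        (Ex_nonneg hp fun w => closed_nonneg _ w)
        (pow_nonneg (by
          have : (1 - b) ^ c ≤ 1 := pow_le_one₀ (by linarith) (by linarith)
          linarith) _)
    · intro w w' hw
      refine Finset.prod_congr rfl fun h hh => ?_
      rw [ind_congr (P := ∀ e ∈ A h, w e = false) (Q := ∀ e ∈ A h, w' e = false)]
      have : ∀ e ∈ A h, w e = w' e := fun e he => hw e ⟨h, Finset.mem_range.1 hh, he⟩
      exact ⟨fun h e he => (this e he).symm.trans (h e he), fun h e he => (this e he).trans (h e he)⟩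
    · intro w w' hw
      have : ∀ e ∈ A l, w e = w' e := fun e he => hw e (by
        rintro ⟨h, hh, he'⟩
        exact (Finset.disjoint_left.1 (hA h l hh.ne) he') he)
      show 1 - _ = 1 - _
      rw [ind_congr (P := ∀ e ∈ A l, w e = false) (Q := ∀ e ∈ A l, w' e = false)]
      exact ⟨fun h e he => (this e he).symm.trans (h e he), fun h e he => (this e he).trans (h e he)⟩

/-- If a connection needs an open edge in each of the disjoint cut sets `A h`, `h < l`. -/
theorem PC_cut {p : E → ℝ} (hp : Prb p) (A : ℕ → Finset E)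
    (hA : ∀ i j, i ≠ j → Disjoint (A i) (A j)) {b : ℝ} {c : ℕ} (hb0 : 0 ≤ b)
    (hb1 : b ≤ 1) (hb : ∀ i, ∀ e ∈ A i, p e ≤ b) (hc : ∀ i, (A i).card ≤ c) (l : ℕ)
    {S : Set X} {x v : X}
    (h : ∀ w, Cn s t S w x v → ∀ h < l, ∃ e ∈ A h, w e = true) :
    PC s t p S x v ≤ (1 - (1 - b) ^ c) ^ l := by
  refine le_trans (Ex_mono hp fun w => ?_) (cut_le hp A hA hb0 hb1 hb hc l)
  by_cases hw : Cn s t S w x v
  · rw [ind_true hw, Finset.prod_eq_one]
    intro i hi
    obtain ⟨e, he, hwe⟩ := h w hw i (Finset.mem_range.1 hi)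
    rw [ind_false, sub_zero]
    intro h'
    rw [h' e he] at hwe
    exact Bool.false_ne_true hwe
  · rw [ind_false hw]
    exact Finset.prod_nonneg fun _ _ => closed_nonneg _ _

/-- the trivial bound -/
theorem PC_triv {p : E → ℝ} (hp : Prb p) {b : ℝ} {c : ℕ} (hb0 : 0 ≤ b) (hb1 : b ≤ 1)
    (hb : ∀ e, p e ≤ b) {x y : X} (hxy : x ≠ y) (T : Finset E)
    (hT : ∀ e, s e = x ∨ t e = x → e ∈ T) (hc : T.card ≤ c) :
    PC s t p Set.univ x y ≤ 1 - (1 - b) ^ c := by
  refine le_trans (Ex_mono hp fun w => ?_) (open_le T hb0 hb1 (fun e _ => hb e) hc)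
  by_cases hw : Cn s t Set.univ w x y
  · rw [ind_true hw]
    rcases Relation.ReflTransGen.cases_head hw with h | ⟨z, h1, _⟩
    · exact absurd h hxy
    · obtain ⟨_, _, e, hwe, he⟩ := h1
      rw [ind_false, sub_zero]
      intro h'
      have : e ∈ T := hT e (by
        rcases he with ⟨h, _⟩ | ⟨_, h⟩
        · exact Or.inl h
        · exact Or.inr h)
      rw [h' e this] at hwe
      exact Bool.false_ne_true hwe
  · rw [ind_false hw]
    exact closed_nonneg _ _

/-- a sum over finitely many indices in a small set -/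
theorem sum_ind_le {ι : Type} [Fintype ι] {P : ι → Prop} {g : ι → ℝ} {T : Finset ι} {c : ℝ}
    {k : ℕ} (hT : ∀ u, P u → u ∈ T) (hk : T.card ≤ k) (hc : 0 ≤ c) (hg : ∀ u, P u → g u ≤ c) :
    ∑ u, ind (P u) * g u ≤ k * c := by
  classical
  have h1 : ∀ u, ind (P u) * g u ≤ if u ∈ T then c else 0 := by
    intro u
    by_cases hu : P u
    · rw [ind_true hu, one_mul, if_pos (hT u hu)]
      exact hg u hu
    · rw [ind_false hu, zero_mul]
      split_ifs
      · exact hc
      · exact le_rfl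
  refine (Finset.sum_le_sum fun u _ => h1 u).trans ?_
  rw [Finset.sum_ite_mem, Finset.univ_inter, Finset.sum_const, nsmul_eq_mul]
  exact mul_le_mul_of_nonneg_right (by exact_mod_cast hk) hc

end Pool.Agent.W653.AL
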