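import Mathlib

/-!
# Bernoulli percolation on a finite graph: product weights, independence, monotonicity in `p`,
the inequality of Simon and Lieb
-/

set_option autoImplicit false
set_option linter.unusedSectionVars false
set_option linter.unusedDecidableInType false
set_option linter.unusedFintypeInType false

namespace Pool.Agent.W653.AL

open Finset

section weights

variable {E : Type} [Fintype E] [DecidableEq E]

/-- the weight of the configuration `w` if the edge `e` is open with probability `p e` -/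
noncomputable def wt (p : E → ℝ) (w : E → Bool) : ℝ := ∏ e, if w e then p e else 1 - p e

/-- expectation -/
noncomputable def Ex (p : E → ℝ) (f : (E → Bool) → ℝ) : ℝ := ∑ w, wt p w * f w

/-- probabilities -/
def Prb (p : E → ℝ) : Prop := ∀ e, 0 ≤ p e ∧ p e ≤ 1

theorem wt_nonneg {p : E → ℝ} (hp : Prb p) (w : E → Bool) : 0 ≤ wt p w := by
  unfold wt
  refine Finset.prod_nonneg fun e _ => ?_
  split_ifs
  · exact (hp e).1
  · linarith [(hp e).2]

theorem Ex_prod (p : E → ℝ) (g : E → Bool → ℝ) :
    Ex p (fun w => ∏ e, g e (w e)) = ∏ e, (p e * g e true + (1 - p e) * g e false) := by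
  unfold Ex wt
  have h : ∀ e : E, p e * g e true + (1 - p e) * g e false =
      ∑ b : Bool, (if b then p e else 1 - p e) * g e b := by
    intro e; simp
  simp only [h]
  rw [Finset.prod_univ_sum]
  simp only [Fintype.piFinset_univ, Finset.prod_mul_distrib]

theorem Ex_one (p : E → ℝ) : Ex p (fun _ => 1) = 1 := by
  have := Ex_prod p (fun _ _ => 1)
  simpa using this

theorem sum_wt (p : E → ℝ) : ∑ w, wt p w = 1 := by
  have := Ex_one p
  simpa [Ex] using this

theorem Ex_mono {p : E → ℝ} (hp : Prb p) {f g : (E → Bool) → ℝ} (h : ∀ w, f w ≤ g w) :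
    Ex p f ≤ Ex p g :=
  Finset.sum_le_sum fun w _ => mul_le_mul_of_nonneg_left (h w) (wt_nonneg hp w)

theorem Ex_nonneg {p : E → ℝ} (hp : Prb p) {f : (E → Bool) → ℝ} (h : ∀ w, 0 ≤ f w) :
    0 ≤ Ex p f :=
  Finset.sum_nonneg fun w _ => mul_nonneg (wt_nonneg hp w) (h w)

theorem Ex_le_one {p : E → ℝ} (hp : Prb p) {f : (E → Bool) → ℝ} (h : ∀ w, f w ≤ 1) :
    Ex p f ≤ 1 := by
  rw [← Ex_one p]
  exact Ex_mono hp h

theorem Ex_sum {ι : Type} (p : E → ℝ) (s : Finset ι) (f : ι → (E → Bool) → ℝ) :
    Ex p (fun w => ∑ i ∈ s, f i w) = ∑ i ∈ s, Ex p (f i) := by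
  unfold Ex
  rw [Finset.sum_comm]
  refine Finset.sum_congr rfl fun w _ => ?_
  rw [Finset.mul_sum]

theorem Ex_add (p : E → ℝ) (f g : (E → Bool) → ℝ) :
    Ex p (fun w => f w + g w) = Ex p f + Ex p g := by
  unfold Ex
  rw [← Finset.sum_add_distrib]
  exact Finset.sum_congr rfl fun w _ => by ring

theorem Ex_sub (p : E → ℝ) (f g : (E → Bool) → ℝ) :
    Ex p (fun w => f w - g w) = Ex p f - Ex p g := by
  unfold Ex
  rw [← Finset.sum_sub_distrib]
  exact Finset.sum_congr rfl fun w _ => by ring

theorem Ex_smul (p : E → ℝ) (c : ℝ) (f : (E → Bool) → ℝ) :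
    Ex p (fun w => c * f w) = c * Ex p f := by
  unfold Ex
  rw [Finset.mul_sum]
  exact Finset.sum_congr rfl fun w _ => by ring

/-- `f` depends only on the edges in `A` -/
def Dp (A : Set E) (f : (E → Bool) → ℝ) : Prop :=
  ∀ w w' : E → Bool, (∀ e ∈ A, w e = w' e) → f w = f w'

theorem Dp.mono {A B : Set E} (h : A ⊆ B) {f : (E → Bool) → ℝ} (hf : Dp A f) : Dp B f :=
  fun w w' hw => hf w w' fun e he => hw e (h he)

open Classical in
/-- `w` on `A`, `w'` off `A` -/
noncomputable def mix (A : Set E) (w w' : E → Bool) : E → Bool := fun e => if e ∈ A then w e else w' e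

theorem wt_mix (A : Set E) (p : E → ℝ) (w w' : E → Bool) :
    wt p (mix A w w') * wt p (mix A w' w) = wt p w * wt p w' := by
  unfold wt mix
  rw [← Finset.prod_mul_distrib, ← Finset.prod_mul_distrib]
  refine Finset.prod_congr rfl fun e _ => ?_
  by_cases h : e ∈ A
  · simp [h]
  · simp only [h, if_false]
    ring

/-- independence -/
theorem Ex_indep (p : E → ℝ) (A : Set E) {f g : (E → Bool) → ℝ} (hf : Dp A f) (hg : Dp Aᶜ g) :
    Ex p (fun w => f w * g w) = Ex p f * Ex p g := by
  have h1 : Ex p f * Ex p g =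
      ∑ q : (E → Bool) × (E → Bool), (wt p q.1 * wt p q.2) * (f q.1 * g q.2) := by
    unfold Ex
    rw [Finset.sum_mul_sum, Fintype.sum_prod_type]
    refine Finset.sum_congr rfl fun w _ => Finset.sum_congr rfl fun w' _ => ?_
    ring
  have h2 : Ex p (fun w => f w * g w) =
      ∑ q : (E → Bool) × (E → Bool), (wt p q.1 * wt p q.2) * (f q.1 * g q.1) := by
    rw [Fintype.sum_prod_type]
    unfold Ex
    refine Finset.sum_congr rfl fun w _ => ?_
    have : ∀ w' : E → Bool, wt p w * wt p w' * (f w * g w) = (wt p w * (f w * g w)) * wt p w' :=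
      fun w' => by ring
    simp only [this]
    rw [← Finset.mul_sum, sum_wt, mul_one]
  rw [h1, h2]
  let σ : (E → Bool) × (E → Bool) ≃ (E → Bool) × (E → Bool) :=
    { toFun := fun q => (mix A q.1 q.2, mix A q.2 q.1)
      invFun := fun q => (mix A q.1 q.2, mix A q.2 q.1)
      left_inv := by
        rintro ⟨w, w'⟩
        refine Prod.ext ?_ ?_ <;>
        · funext e
          by_cases h : e ∈ A <;> simp [mix, h]
      right_inv := by
        rintro ⟨w, w'⟩
        refine Prod.ext ?_ ?_ <;>
        · funext e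
          by_cases h : e ∈ A <;> simp [mix, h] }
  refine (Equiv.sum_comp σ (fun q : (E → Bool) × (E → Bool) =>
    (wt p q.1 * wt p q.2) * (f q.1 * g q.1))).symm.trans ?_
  refine Finset.sum_congr rfl fun q _ => ?_
  obtain ⟨w, w'⟩ := q
  show wt p (mix A w w') * wt p (mix A w' w) * (f (mix A w w') * g (mix A w w')) = _
  rw [wt_mix]
  have e1 : f (mix A w w') = f w := hf _ _ fun e he => by simp [mix, he]
  have e2 : g (mix A w w') = g w' := hg _ _ fun e he => by
    have : e ∉ A := he
    simp [mix, this]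
  rw [e1, e2]

theorem wt_insert (p : E → ℝ) (e : E) (w : E → Bool) :
    wt p w = (if w e then p e else 1 - p e) *
      ∏ x ∈ Finset.univ.erase e, if w x then p x else 1 - p x := by
  unfold wt
  exact (Finset.mul_prod_erase Finset.univ (fun x => if w x then p x else 1 - p x)
    (Finset.mem_univ e)).symm

/-- changing the probability of one edge -/
theorem Ex_update_mono {p : E → ℝ} (hp : Prb p) (e : E) {a : ℝ} (ha : p e ≤ a) (ha1 : a ≤ 1)
    {f : (E → Bool) → ℝ} (hf : Monotone f) : Ex p f ≤ Ex (Function.update p e a) f := by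
  have key : ∀ q : E → ℝ, (∀ x, x ≠ e → q x = p x) → Ex q f =
      ∑ w : E → Bool, wt p w * (q e * f (Function.update w e true) +
        (1 - q e) * f (Function.update w e false)) := by
    intro q hq
    -- average over the pair
    have h1 : ∀ w : E → Bool, ∀ b : Bool, wt q (Function.update w e b) =
        (if b then q e else 1 - q e) * ∏ x ∈ Finset.univ.erase e, if w x then p x else 1 - p x := by
      intro w b
      rw [wt_insert q e]
      congr 1
      · simp
      · refine Finset.prod_congr rfl fun x hx => ?_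
        have hx' : x ≠ e := Finset.ne_of_mem_erase hx
        rw [Function.update_of_ne hx', hq x hx']
    -- sum over w of F w = (1/2) sum (F (upd true) + F (upd false))
    have h2 : ∀ F : (E → Bool) → ℝ, ∑ w, F w =
        (1 / 2) * ∑ w, (F (Function.update w e true) + F (Function.update w e false)) := by
      intro F
      let τ : (E → Bool) ≃ (E → Bool) :=
        { toFun := fun w => Function.update w e (!(w e))
          invFun := fun w => Function.update w e (!(w e))
          left_inv := fun w => by simp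
          right_inv := fun w => by simp }
      have h3 : ∑ w, F (τ w) = ∑ w, F w := Equiv.sum_comp τ F
      have h4 : ∀ w : E → Bool, F (Function.update w e true) + F (Function.update w e false) =
          F w + F (τ w) := by
        intro w
        show _ = F w + F (Function.update w e (!(w e)))
        cases hw : w e
        · rw [show Function.update w e false = w by rw [← hw]; simp]
          simp only [Bool.not_false]
          ring
        · rw [show Function.update w e true = w by rw [← hw]; simp]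
          simp only [Bool.not_true]
      rw [Finset.sum_congr rfl fun w _ => h4 w, Finset.sum_add_distrib, h3]
      ring
    unfold Ex
    rw [h2 (fun w => wt q w * f w), h2 (fun w => wt p w * (q e * f (Function.update w e true) +
        (1 - q e) * f (Function.update w e false)))]
    congr 1
    refine Finset.sum_congr rfl fun w _ => ?_
    have h5 : ∀ b : Bool, wt p (Function.update w e b) =
        (if b then p e else 1 - p e) * ∏ x ∈ Finset.univ.erase e, if w x then p x else 1 - p x := by
      intro b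
      rw [wt_insert p e]
      congr 1
      · simp
      · refine Finset.prod_congr rfl fun x hx => ?_
        have hx' : x ≠ e := Finset.ne_of_mem_erase hx
        rw [Function.update_of_ne hx']
    rw [h1, h1, h5, h5]
    simp only [Function.update_idem, if_true, Bool.false_eq_true, if_false]
    ring
  rw [key p fun _ _ => rfl, key (Function.update p e a) fun x hx => Function.update_of_ne hx _ _]
  refine Finset.sum_le_sum fun w _ => mul_le_mul_of_nonneg_left ?_ (wt_nonneg hp w)
  rw [Function.update_self]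
  have hle : f (Function.update w e false) ≤ f (Function.update w e true) := by
    apply hf
    intro x
    by_cases hx : x = e
    · subst hx; simp
    · simp [Function.update_of_ne hx]
  nlinarith

theorem Ex_mono_p {p q : E → ℝ} (hp : Prb p) (hq : Prb q) (h : ∀ e, p e ≤ q e)
    {f : (E → Bool) → ℝ} (hf : Monotone f) : Ex p f ≤ Ex q f := by
  classical
  have key : ∀ A : Finset E, Ex p f ≤ Ex (fun e => if e ∈ A then q e else p e) f := by
    intro A
    induction A using Finset.induction_on with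
    | empty => simp
    | insert a A ha ih =>
      refine ih.trans ?_
      have h1 : (fun e => if e ∈ insert a A then q e else p e) =
          Function.update (fun e => if e ∈ A then q e else p e) a (q a) := by
        funext e
        by_cases he : e = a
        · subst he; simp
        · rw [Function.update_of_ne he]
          simp [Finset.mem_insert, he]
      rw [h1]
      refine Ex_update_mono ?_ a ?_ (hq a).2 hf
      · intro e
        dsimp only
        split_ifs
        · exact hq e
        · exact hp e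
      · rw [if_neg ha]; exact h a
  have := key Finset.univ
  simpa using this

end weights

section graph

variable {X E : Type} [Fintype X] [DecidableEq X] [Fintype E] [DecidableEq E]

/-- one open edge inside `A` -/
def St (s t : E → X) (A : Set X) (w : E → Bool) (u v : X) : Prop :=
  u ∈ A ∧ v ∈ A ∧ ∃ e, w e = true ∧ ((s e = u ∧ t e = v) ∨ (s e = v ∧ t e = u))

/-- connected by open edges inside `A` -/
def Cn (s t : E → X) (A : Set X) (w : E → Bool) : X → X → Prop :=
  Relation.ReflTransGen (St s t A w)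

open Classical in
/-- indicator -/
noncomputable def ind (P : Prop) : ℝ := if P then 1 else 0

theorem ind_nonneg (P : Prop) : 0 ≤ ind P := by unfold ind; split_ifs <;> norm_num
theorem ind_le_one (P : Prop) : ind P ≤ 1 := by unfold ind; split_ifs <;> norm_num
theorem ind_mono {P Q : Prop} (h : P → Q) : ind P ≤ ind Q := by
  unfold ind
  by_cases hP : P
  · rw [if_pos hP, if_pos (h hP)]
  · rw [if_neg hP]; split_ifs <;> norm_num
theorem ind_congr {P Q : Prop} (h : P ↔ Q) : ind P = ind Q := by rw [propext h]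
theorem ind_true {P : Prop} (h : P) : ind P = 1 := by unfold ind; rw [if_pos h]
theorem ind_false {P : Prop} (h : ¬P) : ind P = 0 := by unfold ind; rw [if_neg h]
theorem ind_and (P Q : Prop) : ind (P ∧ Q) = ind P * ind Q := by
  by_cases hP : P <;> by_cases hQ : Q <;> simp [ind, hP, hQ]

/-- the probability that `x` and `y` are connected inside `A` -/
noncomputable def PC (s t : E → X) (p : E → ℝ) (A : Set X) (x y : X) : ℝ :=
  Ex p fun w => ind (Cn s t A w x y)

variable {s t : E → X}

theorem St.symm {A : Set X} {w : E → Bool} {u v : X} (h : St s t A w u v) : St s t A w v u :=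
  ⟨h.2.1, h.1, h.2.2.imp fun _ he => ⟨he.1, he.2.symm⟩⟩

theorem St.mono {A B : Set X} (hAB : A ⊆ B) {w w' : E → Bool} (hw : ∀ e, w e = true → w' e = true)
    {u v : X} (h : St s t A w u v) : St s t B w' u v :=
  ⟨hAB h.1, hAB h.2.1, h.2.2.imp fun e he => ⟨hw e he.1, he.2⟩⟩

theorem Cn.mono {A B : Set X} (hAB : A ⊆ B) {w w' : E → Bool} (hw : ∀ e, w e = true → w' e = true)
    {u v : X} (h : Cn s t A w u v) : Cn s t B w' u v := by
  induction h with
  | refl => exact Relation.ReflTransGen.refl
  | tail _ h2 ih => exact ih.tail (St.mono hAB hw h2)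

theorem Cn_mem {A : Set X} {w : E → Bool} {x u : X} (hx : x ∈ A) (h : Cn s t A w x u) : u ∈ A := by
  induction h with
  | refl => exact hx
  | tail _ h _ => exact h.2.1

theorem PC_mono {p : E → ℝ} (hp : Prb p) {A B : Set X} (h : A ⊆ B) (x y : X) :
    PC s t p A x y ≤ PC s t p B x y :=
  Ex_mono hp fun w => ind_mono fun hc => Cn.mono h (fun _ h => h) hc

theorem PC_nonneg {p : E → ℝ} (hp : Prb p) (A : Set X) (x y : X) : 0 ≤ PC s t p A x y :=
  Ex_nonneg hp fun _ => ind_nonneg _

theorem PC_le_one {p : E → ℝ} (hp : Prb p) (A : Set X) (x y : X) : PC s t p A x y ≤ 1 :=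
  Ex_le_one hp fun _ => ind_le_one _

theorem Cn_monotone (A : Set X) (x y : X) :
    Monotone fun w : E → Bool => ind (Cn s t A w x y) := by
  intro w w' h
  refine ind_mono fun hc => Cn.mono subset_rfl (fun e he => ?_) hc
  have h1 := h e
  rw [he] at h1
  cases h2 : w' e
  · rw [h2] at h1
    exact absurd (h1 : true ≤ false) (by simp)
  · rfl

/-- The cluster of `x` in `S` is `C`. -/
def Clu (s t : E → X) (S : Set X) (x : X) (C : Set X) (w : E → Bool) : Prop :=
  {u | Cn s t S w x u} = C

/-- edges inside `S` which touch `C` -/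
def F1 (s t : E → X) (S C : Set X) : Set E :=
  {e | s e ∈ S ∧ t e ∈ S ∧ (s e ∈ C ∨ t e ∈ C)}

theorem Clu_agree {S C : Set X} {x : X} (hx : x ∈ S) {w w' : E → Bool}
    (h : ∀ e ∈ F1 s t S C, w e = w' e) (hw : Clu s t S x C w) : Clu s t S x C w' := by
  have hw0 : ∀ u, Cn s t S w x u ↔ u ∈ C := fun u => by
    have : {u | Cn s t S w x u} = C := hw
    rw [← this]; rfl
  have hstep : ∀ u v, u ∈ C → St s t S w' u v → St s t S w u v := by
    intro u v hu hst
    obtain ⟨h1, h2, e, he, h3⟩ := hst
    refine ⟨h1, h2, e, ?_, h3⟩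
    rw [h e ?_, he]
    rcases h3 with ⟨rfl, rfl⟩ | ⟨rfl, rfl⟩
    · exact ⟨h1, h2, Or.inl hu⟩
    · exact ⟨h2, h1, Or.inr hu⟩
  have hstep' : ∀ u v, u ∈ C → St s t S w u v → St s t S w' u v := by
    intro u v hu hst
    obtain ⟨h1, h2, e, he, h3⟩ := hst
    refine ⟨h1, h2, e, ?_, h3⟩
    rw [← h e ?_, he]
    rcases h3 with ⟨rfl, rfl⟩ | ⟨rfl, rfl⟩
    · exact ⟨h1, h2, Or.inl hu⟩
    · exact ⟨h2, h1, Or.inr hu⟩
  have a1 : ∀ u, Cn s t S w' x u → u ∈ C := by
    intro u hu
    induction hu with
    | refl => exact (hw0 x).1 Relation.ReflTransGen.refl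
    | tail _ h2 ih => exact (hw0 _).1 (((hw0 _).2 ih).tail (hstep _ _ ih h2))
  have a2 : ∀ u, Cn s t S w x u → Cn s t S w' x u := by
    intro u hu
    induction hu with
    | refl => exact Relation.ReflTransGen.refl
    | tail h1 h2 ih => exact ih.tail (hstep' _ _ ((hw0 _).1 h1) h2)
  show {u | Cn s t S w' x u} = C
  ext u
  exact ⟨a1 u, fun hu => a2 u ((hw0 u).2 hu)⟩

theorem Clu_dp {S C : Set X} {x : X} (hx : x ∈ S) :
    Dp (F1 s t S C) fun w => ind (Clu s t S x C w) := fun w w' h =>
  ind_congr ⟨Clu_agree hx h, Clu_agree hx fun e he => (h e he).symm⟩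

/-- edges inside `B` -/
def F3 (s t : E → X) (B : Set X) : Set E := {e | s e ∈ B ∧ t e ∈ B}

theorem Cn_dp {B : Set X} (u v : X) : Dp (F3 s t B) fun w => ind (Cn s t B w u v) := by
  have key : ∀ w w' : E → Bool, (∀ e ∈ F3 s t B, w e = w' e) → Cn s t B w u v →
      Cn s t B w' u v := by
    intro w w' h hc
    have hst : ∀ a b, St s t B w a b → St s t B w' a b := by
      rintro a b ⟨h1, h2, e, he, h3⟩
      refine ⟨h1, h2, e, ?_, h3⟩
      rw [← h e ?_, he]
      rcases h3 with ⟨rfl, rfl⟩ | ⟨rfl, rfl⟩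
      · exact ⟨h1, h2⟩
      · exact ⟨h2, h1⟩
    induction hc with
    | refl => exact Relation.ReflTransGen.refl
    | tail _ h2 ih => exact ih.tail (hst _ _ h2)
  intro w w' h
  exact ind_congr ⟨key w w' h, key w' w fun e he => (h e he).symm⟩

/-- the last vertex of the cluster on a path -/
theorem last_exit {C : Set X} {w : E → Bool} {u y : X} (hy : y ∉ C)
    (h : Cn s t Set.univ w u y) :
    (u ∉ C ∧ Cn s t Cᶜ w u y) ∨
      ∃ a ∈ C, ∃ b, b ∉ C ∧ St s t Set.univ w a b ∧ Cn s t Cᶜ w b y := by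
  induction h using Relation.ReflTransGen.head_induction_on with
  | refl => exact Or.inl ⟨hy, Relation.ReflTransGen.refl⟩
  | @head a c h1 _ ih =>
    rcases ih with ⟨h2, h3⟩ | h
    · by_cases ha : a ∈ C
      · exact Or.inr ⟨a, ha, c, h2, h1, h3⟩
      · exact Or.inl ⟨ha, Relation.ReflTransGen.head ⟨ha, h2, h1.2.2⟩ h3⟩
    · exact Or.inr h

/-- The sum of the inequality of Simon and Lieb. -/
noncomputable def bd (s t : E → X) (p : E → ℝ) (S : Set X) (x : X) (F : X → ℝ) : ℝ :=
  ∑ e, (ind (s e ∈ S ∧ t e ∉ S) * PC s t p S x (s e) * p e * F (t e) +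
    ind (t e ∈ S ∧ s e ∉ S) * PC s t p S x (t e) * p e * F (s e))

theorem term_bound {p : E → ℝ} (hp : Prb p) {S : Set X} {x y : X} (hx : x ∈ S) (e : E) {a b : X}
    (hab : (s e = a ∧ t e = b) ∨ (s e = b ∧ t e = a)) (haS : a ∈ S) (hbS : b ∉ S) (C : Set X)
    (haC : a ∈ C) (hCS : C ⊆ S) :
    Ex p (fun w => ind (Clu s t S x C w) * (ind (w e = true) * ind (Cn s t Cᶜ w b y))) ≤
      Ex p (fun w => ind (Clu s t S x C w)) * (p e * PC s t p Set.univ b y) := by
  have he1 : e ∉ F1 s t S C := by
    rintro ⟨h1, h2, _⟩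
    rcases hab with ⟨_, rfl⟩ | ⟨rfl, _⟩
    · exact hbS h2
    · exact hbS h1
  have he3 : e ∉ F3 s t Cᶜ := by
    rintro ⟨h1, h2⟩
    rcases hab with ⟨rfl, _⟩ | ⟨_, rfl⟩
    · exact h1 haC
    · exact h2 haC
  have h13 : F3 s t Cᶜ ⊆ (F1 s t S C)ᶜ := by
    rintro f ⟨h1, h2⟩ ⟨_, _, h3⟩
    rcases h3 with h3 | h3
    · exact h1 h3
    · exact h2 h3
  rw [Ex_indep p (F1 s t S C) (Clu_dp hx) (g := fun w => ind (w e = true) * ind (Cn s t Cᶜ w b y))]
  · refine mul_le_mul_of_nonneg_left ?_ (Ex_nonneg hp fun _ => ind_nonneg _)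
    rw [Ex_indep p {e} (f := fun w => ind (w e = true)) (g := fun w => ind (Cn s t Cᶜ w b y))]
    · have h4 : Ex p (fun w => ind (w e = true)) = p e := by
        have h5 := Ex_prod p (fun x b => if x = e then ind (b = true) else 1)
        have h6 : (fun w : E → Bool => ∏ x, if x = e then ind (w x = true) else 1) =
            fun w => ind (w e = true) := by
          funext w
          rw [Finset.prod_ite_eq' Finset.univ e (fun x => ind (w x = true))]
          simp
        rw [h6] at h5
        rw [h5, Finset.prod_eq_single e]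
        · simp [ind]
        · intro x _ hx'
          simp [hx']
        · intro h; exact absurd (Finset.mem_univ e) h
      rw [h4]
      exact mul_le_mul_of_nonneg_left (PC_mono hp (Set.subset_univ _) b y) (hp e).1
    · intro w w' h
      show ind (w e = true) = ind (w' e = true)
      rw [h e rfl]
    · intro w w' h
      refine Cn_dp b y w w' fun f hf => h f ?_
      intro hfe
      have : f = e := hfe
      rw [this] at hf
      exact he3 hf
  · intro w w' h
    show ind (w e = true) * ind (Cn s t Cᶜ w b y) = ind (w' e = true) * ind (Cn s t Cᶜ w' b y)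
    rw [h e he1]
    have := Cn_dp (s := s) (t := t) (B := Cᶜ) b y w w' fun f hf => h f (h13 hf)
    simp only at this
    rw [this]

theorem sum_clu {p : E → ℝ} {S : Set X} {x a : X} :
    ∑ C : Set X, ind (a ∈ C) * Ex p (fun w => ind (Clu s t S x C w)) = PC s t p S x a := by
  classical
  unfold PC
  rw [← Finset.sum_congr rfl fun C _ => Ex_smul p (ind (a ∈ C)) fun w => ind (Clu s t S x C w),
    ← Ex_sum]
  congr 1
  funext w
  rw [Finset.sum_eq_single {u | Cn s t S w x u}]
  · rw [ind_true (P := Clu s t S x _ w) rfl, mul_one]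
    rfl
  · intro C _ hC
    rw [ind_false (P := Clu s t S x C w) fun h => hC h.symm, mul_zero]
  · intro h; exact absurd (Finset.mem_univ _) h

/-- **The inequality of Simon and Lieb.** -/
theorem simon_lieb {p : E → ℝ} (hp : Prb p) {S : Set X} {x y : X} (hx : x ∈ S) (hy : y ∉ S) :
    PC s t p Set.univ x y ≤ bd s t p S x fun v => PC s t p Set.univ v y := by
  classical
  have hpt : ∀ w : E → Bool, ind (Cn s t Set.univ w x y) ≤ ∑ C : Set X, ∑ e,
      (ind (s e ∈ S ∧ t e ∉ S ∧ s e ∈ C ∧ C ⊆ S) * (ind (Clu s t S x C w) *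
          (ind (w e = true) * ind (Cn s t Cᶜ w (t e) y))) +
        ind (t e ∈ S ∧ s e ∉ S ∧ t e ∈ C ∧ C ⊆ S) * (ind (Clu s t S x C w) *
          (ind (w e = true) * ind (Cn s t Cᶜ w (s e) y)))) := by
    intro w
    have hnn : ∀ C : Set X, ∀ e : E, 0 ≤
      (ind (s e ∈ S ∧ t e ∉ S ∧ s e ∈ C ∧ C ⊆ S) * (ind (Clu s t S x C w) *
          (ind (w e = true) * ind (Cn s t Cᶜ w (t e) y))) +
        ind (t e ∈ S ∧ s e ∉ S ∧ t e ∈ C ∧ C ⊆ S) * (ind (Clu s t S x C w) *
          (ind (w e = true) * ind (Cn s t Cᶜ w (s e) y)))) := by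
      intro C e
      exact add_nonneg
        (mul_nonneg (ind_nonneg _) (mul_nonneg (ind_nonneg _) (mul_nonneg (ind_nonneg _)
          (ind_nonneg _))))
        (mul_nonneg (ind_nonneg _) (mul_nonneg (ind_nonneg _) (mul_nonneg (ind_nonneg _)
          (ind_nonneg _))))
    by_cases hc : Cn s t Set.univ w x y
    swap
    · rw [ind_false hc]
      exact Finset.sum_nonneg fun C _ => Finset.sum_nonneg fun e _ => hnn C e
    set C : Set X := {u | Cn s t S w x u} with hC
    have hCS : C ⊆ S := fun u hu => Cn_mem hx hu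
    have hyC : y ∉ C := fun h => hy (hCS h)
    have hxC : x ∈ C := Relation.ReflTransGen.refl
    rcases last_exit hyC hc with ⟨h, _⟩ | ⟨a, haC, b, hbC, hst, hbc⟩
    · exact absurd hxC h
    have hbS : b ∉ S := by
      intro hbS
      apply hbC
      exact Relation.ReflTransGen.tail haC ⟨hCS haC, hbS, hst.2.2⟩
    obtain ⟨_, _, e, hwe, hab⟩ := hst
    have hclu : Clu s t S x C w := hC.symm
    refine le_trans ?_ (Finset.single_le_sum (f := fun C : Set X => ∑ e,
      (ind (s e ∈ S ∧ t e ∉ S ∧ s e ∈ C ∧ C ⊆ S) * (ind (Clu s t S x C w) *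
          (ind (w e = true) * ind (Cn s t Cᶜ w (t e) y))) +
        ind (t e ∈ S ∧ s e ∉ S ∧ t e ∈ C ∧ C ⊆ S) * (ind (Clu s t S x C w) *
          (ind (w e = true) * ind (Cn s t Cᶜ w (s e) y)))))
      (fun C _ => Finset.sum_nonneg fun e _ => hnn C e) (Finset.mem_univ C))
    refine le_trans ?_ (Finset.single_le_sum (f := fun e =>
      (ind (s e ∈ S ∧ t e ∉ S ∧ s e ∈ C ∧ C ⊆ S) * (ind (Clu s t S x C w) *
          (ind (w e = true) * ind (Cn s t Cᶜ w (t e) y))) +
        ind (t e ∈ S ∧ s e ∉ S ∧ t e ∈ C ∧ C ⊆ S) * (ind (Clu s t S x C w) *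
          (ind (w e = true) * ind (Cn s t Cᶜ w (s e) y)))))
      (fun e _ => hnn C e) (Finset.mem_univ e))
    rw [ind_true hc, ind_true hclu, ind_true hwe]
    rcases hab with ⟨h1, h2⟩ | ⟨h1, h2⟩
    · rw [h1, h2, ind_true (P := a ∈ S ∧ b ∉ S ∧ a ∈ C ∧ C ⊆ S) ⟨hCS haC, hbS, haC, hCS⟩,
        ind_true hbc]
      have := ind_nonneg (b ∈ S ∧ a ∉ S ∧ b ∈ C ∧ C ⊆ S)
      have := ind_nonneg (Cn s t Cᶜ w a y)
      have : 0 ≤ ind (b ∈ S ∧ a ∉ S ∧ b ∈ C ∧ C ⊆ S) * (1 * (1 * ind (Cn s t Cᶜ w a y))) := by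
        positivity
      linarith
    · rw [h1, h2, ind_true (P := a ∈ S ∧ b ∉ S ∧ a ∈ C ∧ C ⊆ S) ⟨hCS haC, hbS, haC, hCS⟩,
        ind_true hbc]
      have := ind_nonneg (b ∈ S ∧ a ∉ S ∧ b ∈ C ∧ C ⊆ S)
      have := ind_nonneg (Cn s t Cᶜ w a y)
      have : 0 ≤ ind (b ∈ S ∧ a ∉ S ∧ b ∈ C ∧ C ⊆ S) * (1 * (1 * ind (Cn s t Cᶜ w a y))) := by
        positivity
      linarith
  refine (Ex_mono hp hpt).trans ?_
  rw [Ex_sum]
  have h1 : ∀ C : Set X, Ex p (fun w => ∑ e,
      (ind (s e ∈ S ∧ t e ∉ S ∧ s e ∈ C ∧ C ⊆ S) * (ind (Clu s t S x C w) *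
          (ind (w e = true) * ind (Cn s t Cᶜ w (t e) y))) +
        ind (t e ∈ S ∧ s e ∉ S ∧ t e ∈ C ∧ C ⊆ S) * (ind (Clu s t S x C w) *
          (ind (w e = true) * ind (Cn s t Cᶜ w (s e) y))))) ≤
      ∑ e, (ind (s e ∈ S ∧ t e ∉ S) * (ind (s e ∈ C) * Ex p (fun w => ind (Clu s t S x C w))) *
          p e * PC s t p Set.univ (t e) y +
        ind (t e ∈ S ∧ s e ∉ S) * (ind (t e ∈ C) * Ex p (fun w => ind (Clu s t S x C w))) *
          p e * PC s t p Set.univ (s e) y) := by
    intro C
    rw [Ex_sum]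
    refine Finset.sum_le_sum fun e _ => ?_
    rw [Ex_add, Ex_smul, Ex_smul]
    refine add_le_add ?_ ?_
    · by_cases h : s e ∈ S ∧ t e ∉ S ∧ s e ∈ C ∧ C ⊆ S
      · rw [ind_true h, ind_true (P := s e ∈ S ∧ t e ∉ S) ⟨h.1, h.2.1⟩, ind_true h.2.2.1]
        have := term_bound (y := y) hp hx e (Or.inl ⟨rfl, rfl⟩) h.1 h.2.1 C h.2.2.1 h.2.2.2
        linarith
      · rw [ind_false h, zero_mul]
        have h2 := Ex_nonneg hp fun w => ind_nonneg (Clu s t S x C w)
        have h3 := PC_nonneg (s := s) (t := t) hp Set.univ (t e) y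
        have h4 := (hp e).1
        have h5 := ind_nonneg (s e ∈ S ∧ t e ∉ S)
        have h6 := ind_nonneg (s e ∈ C)
        positivity
    · by_cases h : t e ∈ S ∧ s e ∉ S ∧ t e ∈ C ∧ C ⊆ S
      · rw [ind_true h, ind_true (P := t e ∈ S ∧ s e ∉ S) ⟨h.1, h.2.1⟩, ind_true h.2.2.1]
        have := term_bound (y := y) hp hx e (Or.inr ⟨rfl, rfl⟩) h.1 h.2.1 C h.2.2.1 h.2.2.2
        linarith
      · rw [ind_false h, zero_mul]
        have h2 := Ex_nonneg hp fun w => ind_nonneg (Clu s t S x C w)
        have h3 := PC_nonneg (s := s) (t := t) hp Set.univ (s e) y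
        have h4 := (hp e).1
        have h5 := ind_nonneg (t e ∈ S ∧ s e ∉ S)
        have h6 := ind_nonneg (t e ∈ C)
        positivity
  refine (Finset.sum_le_sum fun C _ => h1 C).trans (le_of_eq ?_)
  rw [Finset.sum_comm]
  unfold bd
  refine Finset.sum_congr rfl fun e _ => ?_
  rw [Finset.sum_add_distrib, ← sum_clu (a := s e), ← sum_clu (a := t e)]
  simp only [Finset.mul_sum, Finset.sum_mul]

end graph

end Pool.Agent.W653.AL
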