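import Pool.Agent.W653.AL.Geo

/-!
# Exponential decay of the connection probabilities in tubes with thin walls
-/

set_option autoImplicit false
set_option linter.unusedSectionVars false
set_option linter.unusedDecidableInType false
set_option linter.unusedFintypeInType false

namespace Pool.Agent.W653.AL

open Finset

variable {n : ℕ}

theorem Icc_card_le (u l : ℕ) : (Finset.Icc (u - l) (u + l)).card ≤ 2 * l + 1 := by
  rw [Nat.card_Icc]; omega

theorem tube_bd {a b c d : Fin 4} (hcov : ∀ i : Fin 4, i = a ∨ i = b ∨ i = c ∨ i = d)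
    (hab : a ≠ b) (hac : a ≠ c) (had : a ≠ d) (hbc : b ≠ c) (hbd : b ≠ d) (hcd : c ≠ d) {K : ℕ}
    (hK : 0 < K) {p : Sit n × Fin 4 → ℝ} (hp : Prb p) {pB pw : ℝ} (hpB0 : 0 ≤ pB) (hpB1 : pB ≤ 1)
    (hpB : ∀ e, p e ≤ pB) (hpw0 : 0 ≤ pw) {l : ℕ} (x : Sit n)
    (hpw : ∀ (u : Sit n) (k : Fin 4), (u a : ℕ) = x a → k = c ∨ k = d →
      ((u k : ℕ) + 1) / K ≠ (u k : ℕ) / K → p (u, k) ≤ pw)
    (hθ : 2 * ((K * K : ℕ) : ℝ) * (1 - (1 - pB) ^ (K * K)) ^ l ≤ 1 / 4)
    (hw : 4 * (((2 * l + 1) * (K * K) : ℕ) : ℝ) * pw ≤ 1 / 4) :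
    bd Prod.fst (tg a) p (Bk a b c d K l x) x (fun _ => 1) ≤ 1 / 2 := by
  classical
  set S := Bk a b c d K l x with hS
  set θ : ℝ := (1 - (1 - pB) ^ (K * K)) ^ l with hθd
  have hθ0 : 0 ≤ θ := by
    refine pow_nonneg ?_ _
    have : (1 - pB) ^ (K * K) ≤ 1 := pow_le_one₀ (by linarith) (by linarith)
    linarith
  -- rewrite as sums over the direction
  have e0 : bd Prod.fst (tg a) p S x (fun _ => 1) =
      ∑ k : Fin 4, ((∑ u : Sit n, ind (u ∈ S ∧ tg a (u, k) ∉ S) * (PC Prod.fst (tg a) p S x u * p (u, k))) +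
        ∑ u : Sit n, ind (tg a (u, k) ∈ S ∧ u ∉ S) *
          (PC Prod.fst (tg a) p S x (tg a (u, k)) * p (u, k))) := by
    unfold bd
    rw [Fintype.sum_prod_type_right]
    refine Finset.sum_congr rfl fun k _ => ?_
    rw [← Finset.sum_add_distrib]
    refine Finset.sum_congr rfl fun u _ => ?_
    ring
  have hPp : ∀ (v : Sit n) (e : Sit n × Fin 4), 0 ≤ PC Prod.fst (tg a) p S x v * p e :=
    fun v e => mul_nonneg (PC_nonneg hp _ _ _) (hp e).1
  rw [e0]
  refine (sum_four hcov _ fun k => add_nonneg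
    (Finset.sum_nonneg fun u _ => mul_nonneg (ind_nonneg _) (hPp _ _))
    (Finset.sum_nonneg fun u _ => mul_nonneg (ind_nonneg _) (hPp _ _))).trans ?_
  -- direction `a`
  have ea1 : (∑ u : Sit n, ind (u ∈ S ∧ tg a (u, a) ∉ S) *
      (PC Prod.fst (tg a) p S x u * p (u, a))) = 0 := by
    refine Finset.sum_eq_zero fun u _ => ?_
    rw [tg_self, ind_false (fun h => h.2 h.1), zero_mul]
  have ea2 : (∑ u : Sit n, ind (tg a (u, a) ∈ S ∧ u ∉ S) *
      (PC Prod.fst (tg a) p S x (tg a (u, a)) * p (u, a))) = 0 := by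
    refine Finset.sum_eq_zero fun u _ => ?_
    rw [tg_self, ind_false (fun h => h.2 h.1), zero_mul]
  -- direction `b`
  have eb1 : (∑ u : Sit n, ind (u ∈ S ∧ tg a (u, b) ∉ S) *
      (PC Prod.fst (tg a) p S x u * p (u, b))) ≤ ((K * K : ℕ) : ℝ) * θ := by
    have hP : ∀ u : Sit n, (u ∈ S ∧ tg a (u, b) ∉ S) → (u b : ℕ) = x b + l := by
      rintro u ⟨h1, h2⟩
      rw [tg_ne hab.symm] at h2
      by_contra h3
      apply h2
      have h4 := nx_bd u b b
      refine ⟨?_, ⟨?_, ?_⟩, ?_, ?_⟩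
      · rw [nx_ne u hab]; exact h1.1
      · have := h1.2.1.1; omega
      · have := h1.2.1.2; omega
      · rw [nx_ne u hbc.symm]; exact h1.2.2.1
      · rw [nx_ne u hbd.symm]; exact h1.2.2.2
    refine sum_ind_le (T := Tb n a b c d K (x a) {(x b : ℕ) + l} 0 ((x c : ℕ) / K) 0
      ((x d : ℕ) / K)) ?_ ?_ hθ0 ?_
    · intro u hu
      refine Finset.mem_filter.2 ⟨Finset.mem_univ _, hu.1.1, ?_, hu.1.2.2.1, hu.1.2.2.2⟩
      rw [Finset.mem_singleton]
      exact hP u hu
    · refine (Tb_card hcov hK _ _ _ _ _ _).trans ?_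
      rw [Finset.card_singleton, one_mul]
    · intro u hu
      have h1 := PC_far hcov hK hp hpB0 hpB1 hpB hu.1 (Or.inl (hP u hu))
      exact (mul_le_of_le_one_right (PC_nonneg hp _ _ _) (hp _).2).trans h1
  have eb2 : (∑ u : Sit n, ind (tg a (u, b) ∈ S ∧ u ∉ S) *
      (PC Prod.fst (tg a) p S x (tg a (u, b)) * p (u, b))) ≤ ((K * K : ℕ) : ℝ) * θ := by
    have hP : ∀ u : Sit n, (tg a (u, b) ∈ S ∧ u ∉ S) →
        (tg a (u, b) b : ℕ) + l = x b ∧ (u b : ℕ) + 1 + l = x b := by
      rintro u ⟨h1, h2⟩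
      rw [tg_ne hab.symm] at h1 ⊢
      by_cases hlt : (u b : ℕ) + 1 < n
      · have h4 := nx_lt u hlt
        have h5 := h1.2.1
        rw [h4] at h5 ⊢
        by_contra h3
        apply h2
        refine ⟨?_, ⟨by omega, by omega⟩, ?_, ?_⟩
        · have := h1.1; rwa [nx_ne u hab] at this
        · have := h1.2.2.1; rwa [nx_ne u hbc.symm] at this
        · have := h1.2.2.2; rwa [nx_ne u hbd.symm] at this
      · rw [nx_ge u hlt] at h1
        exact absurd h1 h2
    refine sum_ind_le (T := Tb n a b c d K (x a) {(x b : ℕ) - l - 1} 0 ((x c : ℕ) / K) 0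
      ((x d : ℕ) / K)) ?_ ?_ hθ0 ?_
    · intro u hu
      have h1 := hP u hu
      have h2 := hu.1
      rw [tg_ne hab.symm] at h2
      refine Finset.mem_filter.2 ⟨Finset.mem_univ _, ?_, ?_, ?_, ?_⟩
      · have := h2.1; rwa [nx_ne u hab] at this
      · rw [Finset.mem_singleton]; omega
      · have := h2.2.2.1; rwa [nx_ne u hbc.symm] at this
      · have := h2.2.2.2; rwa [nx_ne u hbd.symm] at this
    · refine (Tb_card hcov hK _ _ _ _ _ _).trans ?_
      rw [Finset.card_singleton, one_mul]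
    · intro u hu
      have h1 := PC_far hcov hK hp hpB0 hpB1 hpB hu.1 (Or.inr (hP u hu).1)
      exact (mul_le_of_le_one_right (PC_nonneg hp _ _ _) (hp _).2).trans h1
  -- directions `c` and `d`
  have ew1 : ∀ k : Fin 4, k = c ∨ k = d → (∑ u : Sit n, ind (u ∈ S ∧ tg a (u, k) ∉ S) *
      (PC Prod.fst (tg a) p S x u * p (u, k))) ≤ (((2 * l + 1) * (K * K) : ℕ) : ℝ) * pw := by
    intro k hk
    have hka : k ≠ a := by rcases hk with rfl | rfl; exacts [hac.symm, had.symm]
    have hkb : k ≠ b := by rcases hk with rfl | rfl; exacts [hbc.symm, hbd.symm]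
    refine sum_ind_le (T := Tb n a b c d K (x a) (Finset.Icc ((x b : ℕ) - l) (x b + l)) 0
      ((x c : ℕ) / K) 0 ((x d : ℕ) / K)) ?_ ?_ hpw0 ?_
    · intro u hu
      refine Finset.mem_filter.2 ⟨Finset.mem_univ _, hu.1.1, ?_, hu.1.2.2.1, hu.1.2.2.2⟩
      rw [Finset.mem_Icc]
      have := hu.1.2.1
      omega
    · exact (Tb_card hcov hK _ _ _ _ _ _).trans (Nat.mul_le_mul_right _ (Icc_card_le _ _))
    · rintro u ⟨h1, h2⟩
      refine (mul_le_of_le_one_left (hp _).1 (PC_le_one hp _ _ _)).trans ?_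
      refine hpw u k h1.1 hk ?_
      intro h3
      apply h2
      rw [tg_ne hka]
      refine ⟨?_, ?_, ?_, ?_⟩
      · rw [nx_ne u hka.symm]; exact h1.1
      · rw [nx_ne u hkb.symm]; exact h1.2.1
      · by_cases hkc : k = c
        · subst hkc
          by_cases hlt : (u k : ℕ) + 1 < n
          · rw [nx_lt u hlt, h3]; exact h1.2.2.1
          · rw [nx_ge u hlt]; exact h1.2.2.1
        · rw [nx_ne u (Ne.symm hkc)]; exact h1.2.2.1
      · by_cases hkd : k = d
        · subst hkd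
          by_cases hlt : (u k : ℕ) + 1 < n
          · rw [nx_lt u hlt, h3]; exact h1.2.2.2
          · rw [nx_ge u hlt]; exact h1.2.2.2
        · rw [nx_ne u (Ne.symm hkd)]; exact h1.2.2.2
  have ew2 : ∀ k : Fin 4, k = c ∨ k = d → (∑ u : Sit n, ind (tg a (u, k) ∈ S ∧ u ∉ S) *
      (PC Prod.fst (tg a) p S x (tg a (u, k)) * p (u, k))) ≤
        (((2 * l + 1) * (K * K) : ℕ) : ℝ) * pw := by
    intro k hk
    have hka : k ≠ a := by rcases hk with rfl | rfl; exacts [hac.symm, had.symm]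
    have hkb : k ≠ b := by rcases hk with rfl | rfl; exacts [hbc.symm, hbd.symm]
    have hlt : ∀ u : Sit n, (tg a (u, k) ∈ S ∧ u ∉ S) → (u k : ℕ) + 1 < n := by
      rintro u ⟨h1, h2⟩
      by_contra h3
      rw [tg_ne hka, nx_ge u h3] at h1
      exact h2 h1
    have hcol : ∀ u : Sit n, (tg a (u, k) ∈ S ∧ u ∉ S) → (u a : ℕ) = x a ∧
        ((x b : ℕ) ≤ u b + l ∧ (u b : ℕ) ≤ x b + l) ∧
        ((u c : ℕ) + (if k = c then 1 else 0)) / K = (x c : ℕ) / K ∧
        ((u d : ℕ) + (if k = d then 1 else 0)) / K = (x d : ℕ) / K := by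
      intro u hu
      have h1 := hu.1
      rw [tg_ne hka] at h1
      obtain ⟨g1, g2, g3, g4⟩ := h1
      rw [nx_ne u hka.symm] at g1
      rw [nx_ne u hkb.symm] at g2
      refine ⟨g1, g2, ?_, ?_⟩
      · by_cases hkc : k = c
        · rw [if_pos hkc]
          subst hkc
          rwa [nx_lt u (hlt u hu)] at g3
        · rw [if_neg hkc, Nat.add_zero]
          rwa [nx_ne u (Ne.symm hkc)] at g3
      · by_cases hkd : k = d
        · rw [if_pos hkd]
          subst hkd
          rwa [nx_lt u (hlt u hu)] at g4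
        · rw [if_neg hkd, Nat.add_zero]
          rwa [nx_ne u (Ne.symm hkd)] at g4
    refine sum_ind_le (T := Tb n a b c d K (x a) (Finset.Icc ((x b : ℕ) - l) (x b + l))
      (if k = c then 1 else 0) ((x c : ℕ) / K) (if k = d then 1 else 0) ((x d : ℕ) / K)) ?_ ?_
        hpw0 ?_
    · intro u hu
      obtain ⟨g1, g2, g3, g4⟩ := hcol u hu
      refine Finset.mem_filter.2 ⟨Finset.mem_univ _, g1, ?_, g3, g4⟩
      rw [Finset.mem_Icc]
      omega
    · exact (Tb_card hcov hK _ _ _ _ _ _).trans (Nat.mul_le_mul_right _ (Icc_card_le _ _))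
    · intro u hu
      refine (mul_le_of_le_one_left (hp _).1 (PC_le_one hp _ _ _)).trans ?_
      obtain ⟨g1, g2, g3, g4⟩ := hcol u hu
      refine hpw u k g1 hk ?_
      intro h3
      apply hu.2
      refine ⟨g1, g2, ?_, ?_⟩
      · by_cases hkc : k = c
        · rw [if_pos hkc] at g3
          subst hkc
          rw [← h3]; exact g3
        · rw [if_neg hkc, Nat.add_zero] at g3
          exact g3
      · by_cases hkd : k = d
        · rw [if_pos hkd] at g4
          subst hkd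
          rw [← h3]; exact g4
        · rw [if_neg hkd, Nat.add_zero] at g4
          exact g4
  have hc1 := ew1 c (Or.inl rfl)
  have hc2 := ew2 c (Or.inl rfl)
  have hd1 := ew1 d (Or.inr rfl)
  have hd2 := ew2 d (Or.inr rfl)
  rw [ea1, ea2]
  linarith

/-- the distance in direction `j` -/
def dj (j : Fin 4) (x y : Sit n) : ℕ := ((x j : ℕ) - y j) + ((y j : ℕ) - x j)

theorem tube_decay {a b c d : Fin 4} (hcov : ∀ i : Fin 4, i = a ∨ i = b ∨ i = c ∨ i = d)
    (hab : a ≠ b) (hac : a ≠ c) (had : a ≠ d) (hbc : b ≠ c) (hbd : b ≠ d) (hcd : c ≠ d) {K : ℕ}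
    (hK : 0 < K) {p : Sit n × Fin 4 → ℝ} (hp : Prb p) {pB pw : ℝ} (hpB0 : 0 ≤ pB) (hpB1 : pB ≤ 1)
    (hpB : ∀ e, p e ≤ pB) (hpw0 : 0 ≤ pw) {l A : ℕ}
    (hpw : ∀ (u : Sit n) (k : Fin 4), (u a : ℕ) = A → k = c ∨ k = d →
      ((u k : ℕ) + 1) / K ≠ (u k : ℕ) / K → p (u, k) ≤ pw)
    (hθ : 2 * ((K * K : ℕ) : ℝ) * (1 - (1 - pB) ^ (K * K)) ^ l ≤ 1 / 4)
    (hw : 4 * (((2 * l + 1) * (K * K) : ℕ) : ℝ) * pw ≤ 1 / 4) {j : Fin 4} (hj : j ≠ a)
    (x y : Sit n) (hx : (x a : ℕ) = A) (k : ℕ) (hk : k * (l + K + 1) ≤ dj j x y) :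
    PC Prod.fst (tg a) p Set.univ x y ≤ (1 / 2) ^ k := by
  have hclose : ∀ x u : Sit n, u ∈ Bk a b c d K l x → (u j : ℕ) ≤ x j + (l + K - 1) ∧
      (x j : ℕ) ≤ u j + (l + K - 1) := by
    rintro x u ⟨h1, h2, h3, h4⟩
    rcases hcov j with h | h | h | h
    · exact absurd h hj
    · subst h; omega
    · subst h
      have := div_close hK h3
      have := div_close hK h3.symm
      omega
    · subst h
      have := div_close hK h4
      have := div_close hK h4.symm
      omega
  have h0 : ∀ x : Sit n, x ∈ Bk a b c d K l x := fun x => ⟨rfl, ⟨by omega, by omega⟩, rfl, rfl⟩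
  refine PC_iter hp (dj j) (l + K) (Bk a b c d K l) (fun x => (x a : ℕ) = A) h0 ?_ ?_ ?_ ?_ ?_ ?_
    k x y hx hk
  · intro x e hx h1 _
    rw [tg_a, h1.1]; exact hx
  · intro x e hx h1 _
    have := h1.1
    rw [tg_a] at this
    rw [this]; exact hx
  · intro x y e h1 _
    have h2 := hclose x _ h1
    have h3 := tg_bd a e j
    unfold dj
    omega
  · intro x y e h1 _
    have h2 := hclose x _ h1
    have h3 := tg_bd a e j
    unfold dj
    omega
  · intro x y h1
    have h2 := hclose x _ h1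
    unfold dj
    omega
  · intro x hx
    refine tube_bd hcov hab hac had hbc hbd hcd hK hp hpB0 hpB1 hpB hpw0 x ?_ hθ hw
    intro u k hu
    exact hpw u k (hu.trans hx)

/-- the trivial bound -/
theorem triv_bound {a : Fin 4} {p : Sit n × Fin 4 → ℝ} (hp : Prb p) {pB : ℝ} (hpB0 : 0 ≤ pB)
    (hpB1 : pB ≤ 1) (hpB : ∀ e, p e ≤ pB) {x y : Sit n} (hxy : x ≠ y) :
    PC Prod.fst (tg a) p Set.univ x y ≤ 1 - (1 - pB) ^ 8 := by
  classical
  let pr : Sit n → Fin 4 → Sit n := fun x k => Function.update x k ⟨(x k : ℕ) - 1, by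
    have := (x k).isLt; omega⟩
  refine PC_triv hp hpB0 hpB1 hpB hxy
    ((Finset.univ.image fun k : Fin 4 => (x, k)) ∪ (Finset.univ.image fun k : Fin 4 => (pr x k, k)))
    ?_ ?_
  · rintro ⟨u, k⟩ h
    rw [Finset.mem_union]
    rcases h with h | h
    · left
      refine Finset.mem_image.2 ⟨k, Finset.mem_univ _, ?_⟩
      have : u = x := h
      rw [this]
    · by_cases hk : k = a
      · left
        refine Finset.mem_image.2 ⟨k, Finset.mem_univ _, ?_⟩
        have h' : tg a (u, k) = x := h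
        rw [hk, tg_self] at h'
        rw [h', hk]
      · have h' : tg a (u, k) = x := h
        rw [tg_ne hk] at h'
        by_cases hlt : (u k : ℕ) + 1 < n
        · right
          refine Finset.mem_image.2 ⟨k, Finset.mem_univ _, ?_⟩
          have : pr x k = u := by
            funext i
            by_cases hi : i = k
            · subst hi
              show Function.update x i _ i = _
              rw [Function.update_self]
              apply Fin.ext
              show (x i : ℕ) - 1 = u i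
              rw [← h', nx_lt u hlt]
              omega
            · show Function.update x k _ i = _
              rw [Function.update_of_ne hi, ← h', nx_ne u hi]
          rw [this]
        · left
          refine Finset.mem_image.2 ⟨k, Finset.mem_univ _, ?_⟩
          rw [nx_ge u hlt] at h'
          rw [h']
  · refine (Finset.card_union_le _ _).trans ?_
    have h1 := Finset.card_image_le (s := (Finset.univ : Finset (Fin 4)))
      (f := fun k : Fin 4 => (x, k))
    have h2 := Finset.card_image_le (s := (Finset.univ : Finset (Fin 4)))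
      (f := fun k : Fin 4 => (pr x k, k))
    simp only [Finset.card_univ, Fintype.card_fin] at h1 h2
    omega

end Pool.Agent.W653.AL
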