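import Pool.Agent.W653.AL.Geo

/-!
# Lattice gauge fields in a box: segments, plaquettes, rectangles, central twists
-/

set_option autoImplicit false
set_option linter.unusedSectionVars false
set_option linter.unusedDecidableInType false
set_option linter.unusedFintypeInType false

namespace Pool.Agent.W653.AL

open Finset

variable {G : Type} [Group G] {n : ℕ}

/-- link configurations -/
abbrev Cfg (G : Type) (n : ℕ) : Type := Sit n × Fin 4 → G

/-- The site `x + m e i`. -/
def mv (x : Sit n) (i : Fin 4) : ℕ → Sit n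
  | 0 => x
  | m + 1 => nx (mv x i m) i

/-- plaquettes -/
def plq (U : Cfg G n) (x : Sit n) (i j : Fin 4) : G :=
  U (x, i) * U (nx x i, j) * (U (nx x j, i))⁻¹ * (U (x, j))⁻¹

/-- segments -/
def seg (U : Cfg G n) (x : Sit n) (i : Fin 4) : ℕ → G
  | 0 => 1
  | m + 1 => seg U x i m * U (mv x i m, i)

/-- rectangles -/
def rec4 (U : Cfg G n) (x : Sit n) (a b : Fin 4) (R L : ℕ) : G :=
  seg U x a R * seg U (mv x a R) b L * (seg U (mv x b L) a R)⁻¹ * (seg U x b L)⁻¹

theorem rec4_inv (U : Cfg G n) (x : Sit n) (a b : Fin 4) (R L : ℕ) :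
    (rec4 U x a b R L)⁻¹ = rec4 U x b a L R := by
  unfold rec4
  simp only [mul_inv_rev, inv_inv, mul_assoc]

theorem mv_ne (x : Sit n) {i j : Fin 4} (h : j ≠ i) (m : ℕ) : mv x i m j = x j := by
  induction m with
  | zero => rfl
  | succ m ih => rw [mv, nx_ne _ h, ih]

theorem mv_eq (x : Sit n) {i : Fin 4} {m : ℕ} (h : (x i : ℕ) + m < n) :
    (mv x i m i : ℕ) = x i + m := by
  induction m with
  | zero => rfl
  | succ m ih =>
    have h1 := ih (by omega)
    rw [mv, nx_lt _ (by omega), h1]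
    omega

open Classical in
/-- the twist by `z` on the links in direction `a` over `C` -/
noncomputable def tw (a : Fin 4) (C : Set (Sit n)) (z : G) : Cfg G n :=
  fun e => if e.2 = a ∧ e.1 ∈ C then z else 1

theorem tw_ne {a b : Fin 4} (h : b ≠ a) (C : Set (Sit n)) (z : G) (u : Sit n) :
    tw a C z (u, b) = 1 := by
  unfold tw
  rw [if_neg (fun h' => h h'.1)]

theorem tw_in {a : Fin 4} {C : Set (Sit n)} (z : G) {u : Sit n} (h : u ∈ C) :
    tw a C z (u, a) = z := by
  unfold tw
  rw [if_pos ⟨rfl, h⟩]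

theorem tw_out {a : Fin 4} {C : Set (Sit n)} (z : G) {u : Sit n} (h : u ∉ C) :
    tw a C z (u, a) = 1 := by
  unfold tw
  rw [if_neg (fun h' => h h'.2)]

theorem seg_tw_ne {a b : Fin 4} (h : b ≠ a) (C : Set (Sit n)) (z : G) (U : Cfg G n) (x : Sit n)
    (m : ℕ) : seg (tw a C z * U) x b m = seg U x b m := by
  induction m with
  | zero => rfl
  | succ m ih => rw [seg, seg, ih, Pi.mul_apply, tw_ne h, one_mul]

open Classical in
/-- the number of twisted links -/
noncomputable def cnt (a : Fin 4) (C : Set (Sit n)) (x : Sit n) (m : ℕ) : ℕ :=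
  ∑ k ∈ range m, if mv x a k ∈ C then 1 else 0

theorem seg_tw {a : Fin 4} (C : Set (Sit n)) {z : G} (hz : ∀ g, z * g = g * z) (U : Cfg G n)
    (x : Sit n) (m : ℕ) : seg (tw a C z * U) x a m = z ^ cnt a C x m * seg U x a m := by
  induction m with
  | zero => simp [seg, cnt]
  | succ m ih =>
    rw [seg, seg, ih, Pi.mul_apply]
    unfold cnt
    rw [Finset.sum_range_succ]
    by_cases h : mv x a m ∈ C
    · rw [tw_in z h, if_pos h, pow_add, pow_one]
      simp only [mul_assoc]
      congr 1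
      rw [← mul_assoc, ← hz, mul_assoc]
    · rw [tw_out z h, if_neg h, one_mul, add_zero, mul_assoc]

/-- a plaquette without links in direction `a` -/
theorem plq_tw_ne {a i j : Fin 4} (hi : i ≠ a) (hj : j ≠ a) (C : Set (Sit n)) (z : G)
    (U : Cfg G n) (x : Sit n) : plq (tw a C z * U) x i j = plq U x i j := by
  unfold plq
  simp only [Pi.mul_apply, tw_ne hi, tw_ne hj, one_mul]

theorem plq_tw_left {a j : Fin 4} (hj : j ≠ a) {C : Set (Sit n)} {z : G}
    (hz : ∀ g, z * g = g * z) (U : Cfg G n) (x : Sit n) (hC : x ∈ C ↔ nx x j ∈ C) :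
    plq (tw a C z * U) x a j = plq U x a j := by
  unfold plq
  simp only [Pi.mul_apply, tw_ne hj, one_mul]
  by_cases h : x ∈ C
  · rw [tw_in z h, tw_in z (hC.1 h), mul_inv_rev]
    have e1 : ∀ g h : G, z * g * h * z⁻¹ = g * h := by
      intro g h
      rw [hz g, mul_assoc g, hz h, ← mul_assoc, mul_assoc, mul_inv_cancel, mul_one]
    have e2 : z * U (x, a) * U (nx x a, j) * ((U (nx x j, a))⁻¹ * z⁻¹) =
        z * U (x, a) * (U (nx x a, j) * (U (nx x j, a))⁻¹) * z⁻¹ := by group
    rw [e2, e1]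
    group
  · rw [tw_out z h, tw_out z (fun h' => h (hC.2 h')), one_mul, one_mul]

theorem plq_tw_right {a i : Fin 4} (hi : i ≠ a) {C : Set (Sit n)} {z : G}
    (hz : ∀ g, z * g = g * z) (U : Cfg G n) (x : Sit n) (hC : x ∈ C ↔ nx x i ∈ C) :
    plq (tw a C z * U) x i a = plq U x i a := by
  unfold plq
  simp only [Pi.mul_apply, tw_ne hi, one_mul]
  by_cases h : x ∈ C
  · rw [tw_in z h, tw_in z (hC.1 h), mul_inv_rev]
    have e1 : ∀ g : G, z * g * z⁻¹ = g := by
      intro g
      rw [hz g, mul_assoc, mul_inv_cancel, mul_one]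
    have e2 : U (x, i) * (z * U (nx x i, a)) * (U (nx x a, i))⁻¹ * ((U (x, a))⁻¹ * z⁻¹) =
        U (x, i) * (z * (U (nx x i, a) * (U (nx x a, i))⁻¹ * (U (x, a))⁻¹) * z⁻¹) := by group
    rw [e2, e1]
    group
  · rw [tw_out z h, tw_out z (fun h' => h (hC.2 h')), one_mul, one_mul]

/-- the twist of a rectangle which crosses `C` in the first side only -/
theorem rec4_tw {a b : Fin 4} (hba : b ≠ a) {C : Set (Sit n)} {z : G}
    (hz : ∀ g, z * g = g * z) (U : Cfg G n) (x : Sit n) (R L : ℕ)
    (h1 : cnt a C x R = 1) (h2 : cnt a C (mv x b L) R = 0) :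
    rec4 (tw a C z * U) x a b R L = z * rec4 U x a b R L := by
  unfold rec4
  rw [seg_tw C hz, seg_tw C hz, seg_tw_ne hba, seg_tw_ne hba, h1, h2, pow_one, pow_zero, one_mul]
  simp only [mul_assoc]

theorem cnt_one {a : Fin 4} {C : Set (Sit n)} {x : Sit n} {R t : ℕ} (hR : (x a : ℕ) + R ≤ n)
    (ht : t < R) (hC : ∀ v ∈ C, (v a : ℕ) = x a + t) (hx : mv x a t ∈ C) : cnt a C x R = 1 := by
  unfold cnt
  rw [Finset.sum_eq_single t]
  · rw [if_pos hx]
  · intro k hk hkt
    rw [if_neg]
    intro h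
    have h1 := hC _ h
    rw [mv_eq x (by have := Finset.mem_range.1 hk; omega)] at h1
    exact hkt (by omega)
  · intro h; exact absurd (Finset.mem_range.2 ht) h

theorem cnt_zero {a : Fin 4} {C : Set (Sit n)} {x : Sit n} {R t h : ℕ} (hR : (x a : ℕ) + R ≤ n)
    (hh : h = x a + t)
    (hC : ∀ v ∈ C, (v a : ℕ) = h) (hx : mv x a t ∉ C) : cnt a C x R = 0 := by
  unfold cnt
  refine Finset.sum_eq_zero fun k hk => ?_
  rw [if_neg]
  intro h'
  have h1 := hC _ h'
  rw [mv_eq x (by have := Finset.mem_range.1 hk; omega)] at h1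
  have : k = t := by omega
  subst this
  exact hx h'

/-- connections stay in a layer -/
theorem Cn_layer {a : Fin 4} {w : Sit n × Fin 4 → Bool} {x v : Sit n}
    (h : Cn Prod.fst (tg a) Set.univ w x v) : v a = x a := by
  induction h with
  | refl => rfl
  | @tail y z _ hst ih =>
    obtain ⟨_, _, e, _, he⟩ := hst
    have h1 := tg_a a e
    rcases he with ⟨e1, e2⟩ | ⟨e1, e2⟩
    · rw [e1, e2] at h1
      rw [h1, ih]
    · rw [e1, e2] at h1
      rw [← h1, ih]

/-- a connection depends only on the edges of its layer -/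
theorem Cn_layer_dp (a : Fin 4) (x y : Sit n) :
    Dp {e : Sit n × Fin 4 | e.1 a = x a}
      (fun w => ind (Cn Prod.fst (tg a) Set.univ w x y)) := by
  have key : ∀ w w' : Sit n × Fin 4 → Bool, (∀ e ∈ {e : Sit n × Fin 4 | e.1 a = x a},
      w e = w' e) → ∀ v, Cn Prod.fst (tg a) Set.univ w x v → Cn Prod.fst (tg a) Set.univ w' x v := by
    intro w w' h v hc
    induction hc with
    | refl => exact Relation.ReflTransGen.refl
    | @tail y z h1 hst ih =>
      refine ih.tail ?_
      have hy := Cn_layer h1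
      obtain ⟨g1, g2, e, hwe, he⟩ := hst
      refine ⟨g1, g2, e, ?_, he⟩
      rw [← h e ?_, hwe]
      show e.1 a = x a
      rcases he with ⟨e1, e2⟩ | ⟨e1, e2⟩
      · rw [e1, hy]
      · rw [← tg_a a e, e2, hy]
  intro w w' h
  exact ind_congr ⟨key w w' h y, key w' w (fun e he => (h e he).symm) y⟩

/-- independence of the layers -/
theorem layers {p : Sit n × Fin 4 → ℝ} (hp : Prb p) (a : Fin 4) (x y : ℕ → Sit n) (R : ℕ)
    (hx : ∀ s < R, ∀ t < R, s ≠ t → x s a ≠ x t a) :
    Ex p (fun w => ∏ t ∈ range R, ind (Cn Prod.fst (tg a) Set.univ w (x t) (y t))) =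
      ∏ t ∈ range R, PC Prod.fst (tg a) p Set.univ (x t) (y t) := by
  induction R with
  | zero => simp [Ex_one]
  | succ R ih =>
    have h1 : (fun w : Sit n × Fin 4 → Bool =>
        ∏ t ∈ range (R + 1), ind (Cn Prod.fst (tg a) Set.univ w (x t) (y t))) =
        fun w => (∏ t ∈ range R, ind (Cn Prod.fst (tg a) Set.univ w (x t) (y t))) *
          ind (Cn Prod.fst (tg a) Set.univ w (x R) (y R)) := by
      funext w
      rw [Finset.prod_range_succ]
    rw [h1, Ex_indep p {e | ∃ t < R, e.1 a = x t a}, ih (fun s hs t ht => hx s (by omega) t (by omega)),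
      Finset.prod_range_succ]
    · rfl
    · intro w w' hw
      refine Finset.prod_congr rfl fun t ht => ?_
      exact Cn_layer_dp a (x t) (y t) w w' fun e he => hw e ⟨t, Finset.mem_range.1 ht, he⟩
    · refine (Cn_layer_dp a (x R) (y R)).mono ?_
      rintro e he ⟨t, ht, het⟩
      exact hx R (by omega) t (by omega) (by omega) ((show e.1 a = x R a from he).symm.trans het)

end Pool.Agent.W653.AL
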